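import Pool.Agent.Lib.PTa.Defs

/-!
# Brun-Titchmarsh bound for the weighted primes in a class
-/

set_option autoImplicit false

namespace Pool.Agent.PTa

open Finset Pool.Agent.GapSieve Pool.Agent.PosProp Pool.Agent.PTr

private lemma BTn_wp_le {α β : ℝ} (g : ℝ → ℝ) (hg : NB α β g) (X : ℝ) (n : ℕ) (h1 : 1 ≤ n)
    (h2 : (n : ℝ) ≤ 4 * X) : wp g X n ≤ Real.log (4 * X) := by
  have hn1 : (1 : ℝ) ≤ n := by exact_mod_cast h1
  have hlog0 : 0 ≤ Real.log n := Real.log_nonneg hn1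
  have hlog : Real.log n ≤ Real.log (4 * X) := Real.log_le_log (by linarith) h2
  unfold wp
  split_ifs
  · have ha := hg.le_one (Real.log (n / X))
    calc Real.log n * g (Real.log (n / X)) ≤ Real.log n * 1 :=
          mul_le_mul_of_nonneg_left ha hlog0
      _ ≤ Real.log (4 * X) := by linarith
  · linarith

/-- **BTn** -/
theorem BTn_p (h1 : Lnk.BTq) : BTnStmt := by
  intro α β g hg
  obtain ⟨C, hC, h⟩ := h1
  refine ⟨4 * C, 1, by linarith, ?_⟩
  intro X hX P c hPpos hPX hc hcop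
  have hX0 : (0 : ℝ) < X := by linarith
  have hP1 : (1 : ℝ) ≤ (P : ℝ) := by exact_mod_cast hPpos
  have hPsq : (P : ℝ) ^ 2 ≤ 4 * X := by linarith
  have hunit : IsUnit ((c : ℕ) : ZMod P) := (ZMod.isUnit_iff_coprime c P).2 hcop
  have hcard := h P ((c : ℕ) : ZMod P) 0 (4 * X) hPpos hunit le_rfl (by linarith) hPsq
  have hlogpos : 0 < Real.log (4 * X) := Real.log_pos (by linarith)
  have htot : 0 < (P.totient : ℝ) := by exact_mod_cast Nat.totient_pos.2 hPpos
  have hsub : (PA X).filter (fun n => n % P = c) ⊆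
      (Finset.Ioc ⌊(0 : ℝ)⌋₊ ⌊(0 : ℝ) + 4 * X⌋₊).filter
        (fun p : ℕ => p.Prime ∧ ((p : ℕ) : ZMod P) = ((c : ℕ) : ZMod P)) := by
    intro n hn
    rw [Finset.mem_filter] at hn
    obtain ⟨hn1, hn2⟩ := hn
    unfold PA NX at hn1
    rw [Finset.mem_filter, Finset.mem_Icc] at hn1
    obtain ⟨⟨hn3, hn4⟩, hn5, _⟩ := hn1
    rw [Finset.mem_filter, Finset.mem_Ioc]
    refine ⟨⟨?_, ?_⟩, hn5, ?_⟩
    · rw [Nat.floor_zero]; omega
    · rw [zero_add]; exact hn4
    · rw [ZMod.natCast_eq_natCast_iff', hn2, Nat.mod_eq_of_lt hc]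
  have hcard2 : (((PA X).filter (fun n => n % P = c)).card : ℝ) ≤
      C * (4 * X) / (P.totient * Real.log (4 * X)) := by
    refine le_trans ?_ hcard
    exact_mod_cast Finset.card_le_card hsub
  have hsum : ∑ n ∈ (PA X).filter (fun n => n % P = c), wp g X n ≤
      (((PA X).filter (fun n => n % P = c)).card : ℝ) * Real.log (4 * X) := by
    have hs := Finset.sum_le_card_nsmul ((PA X).filter (fun n => n % P = c)) (wp g X)
      (Real.log (4 * X)) (by
        intro n hn
        rw [Finset.mem_filter] at hn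
        obtain ⟨hn1, _⟩ := hn
        unfold PA NX at hn1
        rw [Finset.mem_filter, Finset.mem_Icc] at hn1
        obtain ⟨⟨hn3, hn4⟩, _, _⟩ := hn1
        refine BTn_wp_le g hg X n hn3 ?_
        have h4 : ((⌊4 * X⌋₊ : ℕ) : ℝ) ≤ 4 * X := Nat.floor_le (by linarith)
        have h5 : (n : ℝ) ≤ ((⌊4 * X⌋₊ : ℕ) : ℝ) := by exact_mod_cast hn4
        linarith)
    rwa [nsmul_eq_mul] at hs
  refine le_trans hsum ?_
  calc (((PA X).filter (fun n => n % P = c)).card : ℝ) * Real.log (4 * X)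
      ≤ C * (4 * X) / (P.totient * Real.log (4 * X)) * Real.log (4 * X) :=
        mul_le_mul_of_nonneg_right hcard2 hlogpos.le
    _ = 4 * C * X / P.totient := by
        field_simp

end Pool.Agent.PTa
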