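import Pool.Agent.Lib.PTr.Defs
import Pool.Agent.Lib.MP_5b0a7e_nt.Wtrick

/-!
# Isolated primes in residue classes: definitions and module statements

**Theorem D.** For all reals `0 ≤ lam < mu ≤ nu` there are `δ > 0`, `A0` such that for every
`a ≥ A0` at least `δ φ(a)` of the reduced classes modulo `a` contain exactly one prime
`≤ nu φ(a) log a`, and this prime lies in `(lam φ(a) log a, mu φ(a) log a]`.

Notation as in `PTr/Defs.lean`. The forms are `n + s a`, `1 ≤ |s| ≤ K`, with `n` a prime of weight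
`wp g X n`.
-/

set_option autoImplicit false

namespace Pool.Agent.PTa

open Finset Pool.Agent.GapSieve Pool.Agent.PosProp Pool.Agent.PTr

/-- smooth weights supported in `(α, β)` which are differences of two bumps -/
structure NB (α β : ℝ) (g : ℝ → ℝ) : Prop where
  nonneg : ∀ v, 0 ≤ g v
  le_one : ∀ v, g v ≤ 1
  zero : ∀ v, (v ≤ α ∨ β ≤ v) → g v = 0
  one : ∃ α' β' : ℝ, α < α' ∧ α' < β' ∧ β' < β ∧ ∀ v, α' ≤ v → v ≤ β' → g v = 1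
  dif : ∃ φ ψ : ℝ → ℝ, Hoh.Bump φ ∧ Hoh.Bump ψ ∧ ∀ v, g v = φ v - ψ v

/-- the presieving modulus: the primes `r ≤ log X / 64` which do not divide `a` -/
noncomputable def PXa (a : ℕ) (X : ℝ) : ℕ := LPAP.Wp ⌊Real.log X / 64⌋₊ a

/-- the sites which survive the presieving in the class `c` -/
noncomputable def sitesA (a K P c : ℕ) : Finset ℤ :=
  (Icc (-(K : ℤ)) K).filter (fun s => s ≠ 0 ∧ Int.gcd (c + s * a) P = 1)

/-- all the numbers `n + s a`, `1 ≤ |s| ≤ K`, have a prime factor at most `Y` -/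
def gda (a K : ℕ) (Y : ℝ) (n : ℕ) : Prop :=
  ∀ s : ℤ, s ≠ 0 → |s| ≤ K → ∃ q : ℕ, q.Prime ∧ (q : ℝ) ≤ Y ∧ (q : ℤ) ∣ n + s * a

/-- **NBex**: `g = φ - ψ` with two products of `Real.smoothTransition`, see `Hoh.exists_bump`. -/
def NBexStmt : Prop := ∀ α β : ℝ, 1 / 20 ≤ α → α < β → β ≤ 1 / 10 → ∃ g : ℝ → ℝ, NB α β g

/-- **TBn** (from `PTr.TBStmt`): triangle inequality. -/
def TBnStmt : Prop := ∀ (α β : ℝ) (g : ℝ → ℝ), NB α β g → ∃ C X0 : ℝ, 0 < C ∧ ∀ X : ℝ, X0 ≤ X →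
  ∀ F : ℕ, (F : ℝ) ^ 20 ≤ X → PSum (PA X) (wp g X) F ≤ C * X * Real.log X ^ 4

/-- **HitA** (template `PTr/HitB.lean`): `q > Z` divides neither `s i` nor `s i - s j`, and not
`a` by the definition of `Qa a Z y`. -/
def HitAStmt : Prop := ∀ (a Z K N : ℕ) (y : ℝ) (s : Fin N → ℤ),
  2 * K ≤ Z → N ≤ Z → Function.Injective s → (∀ i, s i ≠ 0 ∧ |s i| ≤ K) →
  PSys (Qa a Z y) (fun q (i : Fin N) t => (q : ℤ) ∣ t + s i * a)

/-- **SurvA** (template `PTr/Surv.lean`): for `r ∤ a`, `r ∤ s` the class `c ≡ -s a` is excluded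
besides `0`. -/
def SurvAStmt : Prop := ∃ C X0 : ℝ, 0 < C ∧ ∀ X : ℝ, X0 ≤ X → ∀ a K : ℕ, 0 < a →
  ∑ c ∈ (range (PXa a X)).filter (fun c => c.Coprime (PXa a X)),
    ((sitesA a K (PXa a X) c).card : ℝ) ≤
    C * (K * ((a : ℝ) / a.totient)) * (PXa a X).totient / Real.log (Real.log X)

/-- **PXaLe**: `PXa ≤ 4 ^ (log X / 64)`. -/
def PXaLeStmt : Prop := ∀ (a : ℕ) (X : ℝ), 1 ≤ X → (PXa a X : ℝ) ≤ X ^ ((1 : ℝ) / 32)

/-- **BTn** (from `Lnk.BTq`; template `PTr/BTc.lean`). -/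
def BTnStmt : Prop := ∀ (α β : ℝ) (g : ℝ → ℝ), NB α β g → ∃ C X0 : ℝ, 0 < C ∧ ∀ X : ℝ, X0 ≤ X →
  ∀ P c : ℕ, 0 < P → (P : ℝ) ^ 2 ≤ X → c < P → c.Coprime P →
  ∑ n ∈ (PA X).filter (fun n => n % P = c), wp g X n ≤ C * X / P.totient

/-- **LowN** (template `PTr/Low.lean`): prime number theorem. -/
def LowNStmt : Prop := ∀ (α β : ℝ) (g : ℝ → ℝ), 1 / 20 ≤ α → β ≤ 1 / 10 → NB α β g →
  ∃ c X0 : ℝ, 0 < c ∧ ∀ X : ℝ, X0 ≤ X → c * X ≤ ∑ n ∈ PA X, wp g X n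

/-- **ClassA** (template `PTr/Class.lean`; from `PosDensTStmt`, `FamStmt`, `TBnStmt`, `HitAStmt`,
`PXaLeStmt`). `Q = Qa a Z (ε L / 32)`, `Z = ⌈L⌉₊ ^ 14`, `a.primeFactors.card ≤ log a / log 2 ≤ Z`. -/
def ClassAStmt : Prop := ∀ (α β : ℝ) (g : ℝ → ℝ), NB α β g → ∀ lam A : ℝ, 1 ≤ lam → 1 ≤ A →
  ∀ c1 : ℝ, 0 < c1 → ∃ c2 X0 : ℝ, 0 < c2 ∧ ∀ X : ℝ, X0 ≤ X → ∀ a K : ℕ, 0 < a →
    Real.log a ≤ 2 * Real.log X → (K : ℝ) ≤ lam * Real.log X →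
    ∀ c : ℕ, c < PXa a X → c.Coprime (PXa a X) →
    ((sitesA a K (PXa a X) c).card : ℝ) ≤ A * Real.log X / Real.log (Real.log X) →
    c1 * X / (PXa a X).totient ≤ ∑ n ∈ (PA X).filter (fun n => n % PXa a X = c), wp g X n →
    open Classical in
    c2 * ∑ n ∈ (PA X).filter (fun n => n % PXa a X = c), wp g X n ≤
      ∑ n ∈ (PA X).filter (fun n => n % PXa a X = c ∧ gda a K (√X) n), wp g X n

/-- **GoodA** (template `PTr/Good.lean`; from `ClassAStmt`, `SurvAStmt`, `BTnStmt`, `LowNStmt`,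
`PXaLeStmt`). -/
def GoodAStmt : Prop := ∀ (α β : ℝ) (g : ℝ → ℝ), 1 / 20 ≤ α → β ≤ 1 / 10 → NB α β g →
  ∀ lam : ℝ, 1 ≤ lam → ∃ c X0 : ℝ, 0 < c ∧ ∀ X : ℝ, X0 ≤ X → ∀ a K : ℕ, 0 < a →
    Real.log a ≤ 2 * Real.log X → (K : ℝ) * ((a : ℝ) / a.totient) ≤ lam * Real.log X →
    open Classical in
    c * X ≤ ∑ n ∈ (PA X).filter (fun n => gda a K (√X) n), wp g X n

/-- **FinalA** (from `GoodAStmt`, `NBexStmt`). `X = kap φ(a) log a`, `kap = mu exp (-1/10)`,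
`α = max (1/20) (log (lam / kap))`, `β = 1/10`, `K = ⌊nu φ(a) log a / a⌋₊`. -/
def FinalAStmt : Prop := ∀ lam mu nu : ℝ, 0 ≤ lam → lam < mu → mu ≤ nu → ∃ δ : ℝ, 0 < δ ∧
  ∃ A0 : ℕ, ∀ a : ℕ, A0 ≤ a → open Classical in
    δ * (a.totient : ℝ) ≤ (((Ico 1 a).filter (fun b => Nat.Coprime a b ∧
      ∃ p : ℕ, p.Prime ∧ p ≡ b [MOD a] ∧ lam * (a.totient : ℝ) * Real.log a < p ∧
        (p : ℝ) ≤ mu * (a.totient : ℝ) * Real.log a ∧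
        ∀ p' : ℕ, p'.Prime → p' ≡ b [MOD a] → (p' : ℝ) ≤ nu * (a.totient : ℝ) * Real.log a →
          p' = p)).card : ℝ)

end Pool.Agent.PTa
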