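import Pool.Agent.Lib.PTa.Defs

/-!
# Isolated primes in residue classes: the end of the proof
-/

set_option autoImplicit false

namespace Pool.Agent.PTa

open Finset Pool.Agent.GapSieve Pool.Agent.PosProp Pool.Agent.PTr

/-- the number of prime factors -/
private lemma fin_omega (a : ℕ) (ha : 0 < a) :
    (a.primeFactors.card : ℝ) ≤ Real.log a + 2 := by
  have h1 := LPAP.four_pow_card_le ha.ne'
  have haR : (0 : ℝ) < a := by exact_mod_cast ha
  have h2 : ((4 : ℝ) ^ a.primeFactors.card) ≤ 16 * a := by exact_mod_cast h1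
  have h3 := Real.log_le_log (by positivity) h2
  rw [Real.log_pow, Real.log_mul (by norm_num) haR.ne'] at h3
  have h4 : Real.log 16 = 2 * Real.log 4 := by
    rw [show (16 : ℝ) = 4 ^ 2 by norm_num, Real.log_pow]
    push_cast
    ring
  have h5 : 1 ≤ Real.log 4 := by
    rw [Real.le_log_iff_exp_le (by norm_num)]
    have := Real.exp_one_lt_d9
    linarith
  have h6 : 0 ≤ Real.log a := Real.log_natCast_nonneg a
  rw [h4] at h3
  have h7 : ((a.primeFactors.card : ℝ) - 2) * Real.log 4 ≤ Real.log a := by linarith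
  by_contra hcon
  push Not at hcon
  have h8 : 0 < (a.primeFactors.card : ℝ) - 2 := by linarith
  nlinarith

/-- a lower bound for the totient -/
private lemma fin_tot (a : ℕ) (ha : 0 < a) :
    (a : ℝ) / (Real.log a + 3) ≤ (a.totient : ℝ) := by
  have haR : (0 : ℝ) < a := by exact_mod_cast ha
  have h1 := LPAP.totient_div a ha.ne'
  have h2 := LPAP.prod_one_sub_ge_card a.primeFactors
    (fun p hp => (Nat.prime_of_mem_primeFactors hp).two_le)
  rw [← h1] at h2
  have h3 := fin_omega a ha
  have h6 : 0 ≤ Real.log a := Real.log_natCast_nonneg a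
  have h4 : 1 / (Real.log a + 3) ≤ 1 / ((a.primeFactors.card : ℝ) + 1) :=
    one_div_le_one_div_of_le (by positivity) (by linarith)
  have h5 := h4.trans h2
  rw [le_div_iff₀ haR] at h5
  calc (a : ℝ) / (Real.log a + 3) = 1 / (Real.log a + 3) * a := by ring
    _ ≤ _ := h5

/-- the number of elements of a class -/
private lemma fin_cls (N a q : ℕ) (ha : 0 < a) :
    (((range (N + 1)).filter (fun n => n ≡ q [MOD a])).card : ℝ) ≤ ((N : ℝ) + 1) / a + 1 := by
  rw [← Nat.count_eq_card_filter_range, Nat.count_modEq_card (N + 1) ha q]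
  have h1 : (((N + 1) / a : ℕ) : ℝ) ≤ ((N + 1 : ℕ) : ℝ) / a := Nat.cast_div_le
  push_cast at h1 ⊢
  split_ifs
  · push_cast
    linarith
  · push_cast
    linarith

/-- the numerical conditions -/
private lemma fin_num (c kap X0 : ℝ) (hc : 0 < c) (hk : 0 < kap) : ∀ᶠ a : ℕ in Filter.atTop,
    ∀ X : ℝ, X = kap * (a.totient : ℝ) * Real.log a →
      X0 ≤ X ∧ 4 ≤ X ∧ Real.log a ≤ 2 * Real.log X ∧ Real.log (4 * X) ≤ 4 * Real.log a ∧
      3 ≤ a ∧ 1 ≤ Real.log a ∧
      (Real.log a + 2) + (√X + 1) * ((4 * X + 1) / a + 1) ≤ c * kap / 8 * a.totient := by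
  have hlog : ∀ᶠ x : ℝ in Filter.atTop, Real.log x ≤ x ^ ((1 : ℝ) / 8) := by
    have h6 := (isLittleO_log_rpow_atTop (by norm_num : (0 : ℝ) < 1 / 8)).def
      (c := 1) (by norm_num)
    filter_upwards [h6, Filter.eventually_ge_atTop 1] with x hx hx1
    rw [Real.norm_eq_abs, Real.norm_eq_abs, abs_of_nonneg (Real.log_nonneg hx1),
      abs_of_nonneg (by positivity), one_mul] at hx
    exact hx
  set D : ℝ := (√kap + 1) * (4 * kap + 2) + 3 with hD
  have hD0 : 0 < D := by
    have := Real.sqrt_nonneg kap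
    positivity
  set T0 : ℝ := max (32 * D / (c * kap)) 1 with hT0
  have hrp : ∀ᶠ x : ℝ in Filter.atTop, T0 ≤ x ^ ((1 : ℝ) / 8) :=
    (tendsto_rpow_atTop (by norm_num : (0 : ℝ) < 1 / 8)).eventually_ge_atTop T0
  have hreal := (hlog.and hrp).and ((Filter.eventually_ge_atTop (Real.exp 3)).and
    ((Filter.eventually_ge_atTop (2 * X0 / kap)).and ((Filter.eventually_ge_atTop (8 / kap)).and
    ((Filter.eventually_ge_atTop (4 / kap ^ 2)).and ((Filter.eventually_ge_atTop (4 * kap)).and
      (Filter.eventually_ge_atTop (3 : ℝ)))))))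
  have hnat := tendsto_natCast_atTop_atTop (R := ℝ) |>.eventually hreal
  filter_upwards [hnat] with a ha X hX
  obtain ⟨⟨h1, h2⟩, h3, h4, h5, h6, h7, h8⟩ := ha
  have ha3 : 3 ≤ a := by exact_mod_cast h8
  have ha0 : 0 < a := by omega
  have haR : (0 : ℝ) < a := by exact_mod_cast ha0
  set L := Real.log (a : ℝ) with hL
  have hL3 : 3 ≤ L := by
    rw [hL, Real.le_log_iff_exp_le haR]
    exact h3
  have htot := fin_tot a ha0
  have htot0 : (0 : ℝ) < (a.totient : ℝ) := by exact_mod_cast Nat.totient_pos.2 ha0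
  have htle : (a.totient : ℝ) ≤ a := by exact_mod_cast Nat.totient_le a
  rw [← hL] at htot
  -- a / 2 ≤ φ(a) log a ≤ a log a
  have e1 : (a : ℝ) / 2 ≤ a.totient * L := by
    rw [div_le_iff₀ (by linarith)] at htot
    nlinarith
  have e2 : (a.totient : ℝ) * L ≤ a * L := mul_le_mul_of_nonneg_right htle (by linarith)
  have hXl : kap * a / 2 ≤ X := by
    rw [hX]
    have := mul_le_mul_of_nonneg_left e1 hk.le
    calc kap * a / 2 = kap * (a / 2) := by ring
      _ ≤ _ := this
      _ = _ := by ring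
  have hXu : X ≤ kap * a * L := by
    rw [hX]
    have := mul_le_mul_of_nonneg_left e2 hk.le
    calc kap * a.totient * L = kap * (a.totient * L) := by ring
      _ ≤ _ := this
      _ = _ := by ring
  have hXp : 0 < X := lt_of_lt_of_le (by positivity) hXl
  have hLa : L ≤ a := by
    have := Real.log_le_sub_one_of_pos haR
    rw [← hL] at this
    linarith
  refine ⟨?_, ?_, ?_, ?_, ha3, by linarith, ?_⟩
  · rw [div_le_iff₀ hk] at h4
    linarith
  · rw [div_le_iff₀ hk] at h5
    linarith
  · have : (a : ℝ) ≤ X ^ 2 := by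
      rw [div_le_iff₀ (by positivity)] at h6
      calc (a : ℝ) = 4 * a / 4 := by ring
        _ ≤ (a * kap ^ 2) * a / 4 := by
            have := mul_le_mul_of_nonneg_right h6 haR.le
            linarith
        _ = (kap * a / 2) ^ 2 := by ring
        _ ≤ X ^ 2 := pow_le_pow_left₀ (by positivity) hXl 2
    have h9 := Real.log_le_log haR this
    rw [Real.log_pow] at h9
    push_cast at h9
    exact h9
  · have : 4 * X ≤ (a : ℝ) ^ 4 := by
      calc 4 * X ≤ 4 * (kap * a * L) := by linarith
        _ ≤ 4 * (kap * a * a) := by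
            have : kap * a * L ≤ kap * a * a := mul_le_mul_of_nonneg_left hLa (by positivity)
            linarith
        _ = (4 * kap) * (a : ℝ) ^ 2 := by ring
        _ ≤ a * (a : ℝ) ^ 2 := mul_le_mul_of_nonneg_right h7 (by positivity)
        _ ≤ (a : ℝ) ^ 4 := by
            have h9 : (a : ℝ) ^ 3 ≤ (a : ℝ) ^ 4 :=
              pow_le_pow_right₀ (by linarith) (by norm_num)
            calc a * (a : ℝ) ^ 2 = (a : ℝ) ^ 3 := by ring
              _ ≤ _ := h9
    have h9 := Real.log_le_log (by positivity) this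
    rw [Real.log_pow] at h9
    push_cast at h9
    exact h9
  · -- the error term
    set t : ℝ := (a : ℝ) ^ ((1 : ℝ) / 8) with ht
    have ht1 : 1 ≤ t := (le_max_right _ _).trans h2
    have ht8 : t ^ 8 = a := by
      rw [ht, ← Real.rpow_natCast, ← Real.rpow_mul haR.le]
      norm_num
    have htD : 32 * D / (c * kap) ≤ t := (le_max_left _ _).trans h2
    have hXt : X ≤ kap * t ^ 9 := by
      calc X ≤ kap * a * L := hXu
        _ ≤ kap * a * t := mul_le_mul_of_nonneg_left h1 (by positivity)
        _ = kap * t ^ 9 := by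
            rw [← ht8]
            ring
    have hsq : √X ≤ √kap * t ^ 5 := by
      rw [show √kap * t ^ 5 = √(kap * t ^ 10) by
        rw [Real.sqrt_mul hk.le, show t ^ 10 = (t ^ 5) ^ 2 by ring,
          Real.sqrt_sq (by positivity)]]
      refine Real.sqrt_le_sqrt (hXt.trans ?_)
      exact mul_le_mul_of_nonneg_left (pow_le_pow_right₀ ht1 (by norm_num)) hk.le
    have hXa : (4 * X + 1) / a + 1 ≤ (4 * kap + 2) * t := by
      have h9 : (4 * X + 1) / a ≤ 4 * kap * t + 1 := by
        rw [div_le_iff₀ haR]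
        have : kap * a * L ≤ kap * a * t := mul_le_mul_of_nonneg_left h1 (by positivity)
        nlinarith
      nlinarith
    have h10 : (√X + 1) * ((4 * X + 1) / a + 1) ≤ (√kap + 1) * t ^ 5 * ((4 * kap + 2) * t) := by
      refine mul_le_mul ?_ hXa (by positivity) (by positivity)
      have h11 : 1 ≤ t ^ 5 := one_le_pow₀ ht1
      linarith
    have h12 : (L + 2) + (√X + 1) * ((4 * X + 1) / a + 1) ≤ D * t ^ 6 := by
      have h13 : t ≤ t ^ 6 := by
        calc t = t ^ 1 := (pow_one t).symm
          _ ≤ t ^ 6 := pow_le_pow_right₀ ht1 (by norm_num)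
      calc (L + 2) + (√X + 1) * ((4 * X + 1) / a + 1)
          ≤ (t + 2 * t) + (√kap + 1) * t ^ 5 * ((4 * kap + 2) * t) := by linarith
        _ ≤ 3 * t ^ 6 + (√kap + 1) * (4 * kap + 2) * t ^ 6 := by
            have : (√kap + 1) * t ^ 5 * ((4 * kap + 2) * t) =
                (√kap + 1) * (4 * kap + 2) * t ^ 6 := by ring
            linarith
        _ = D * t ^ 6 := by
            rw [hD]
            ring
    refine h12.trans ?_
    have h14 : c * kap / 8 * (a / (L + 3)) ≤ c * kap / 8 * a.totient :=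
      mul_le_mul_of_nonneg_left htot (by positivity)
    refine le_trans ?_ h14
    rw [← mul_div_assoc, le_div_iff₀ (by linarith)]
    have h15 : D * t ^ 6 * (L + 3) ≤ D * t ^ 6 * (4 * t) :=
      mul_le_mul_of_nonneg_left (by linarith) (by positivity)
    refine h15.trans ?_
    rw [div_le_iff₀ (by positivity)] at htD
    have h16 : 4 * D ≤ c * kap / 8 * t := by linarith
    calc D * t ^ 6 * (4 * t) = 4 * D * t ^ 7 := by ring
      _ ≤ c * kap / 8 * t * t ^ 7 := mul_le_mul_of_nonneg_right h16 (by positivity)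
      _ = c * kap / 8 * a := by
          rw [← ht8]
          ring

private lemma fin_wp {α β : ℝ} {g : ℝ → ℝ} (hg : NB α β g) {X : ℝ} (hX : 1 ≤ X) {n : ℕ}
    (hn : n ∈ PA X) : wp g X n ≤ Real.log (4 * X) := by
  unfold PA NX at hn
  rw [mem_filter, mem_Icc] at hn
  obtain ⟨⟨h1, h2⟩, hp, _⟩ := hn
  have h3 : (n : ℝ) ≤ 4 * X := (Nat.le_floor_iff (by linarith)).1 h2
  have hn0 : (0 : ℝ) < n := by exact_mod_cast hp.pos
  have h4 : Real.log n ≤ Real.log (4 * X) := Real.log_le_log hn0 h3
  unfold wp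
  rw [if_pos hp]
  calc Real.log n * g (Real.log (n / X)) ≤ Real.log n * 1 :=
        mul_le_mul_of_nonneg_left (hg.le_one _) (Real.log_natCast_nonneg n)
    _ ≤ _ := by linarith

/-- **FinalA** -/
theorem FinalA_p (h1 : GoodAStmt) (h2 : NBexStmt) : FinalAStmt := by
  classical
  intro lam mu nu hlam hlm hmn
  have hmu : 0 < mu := by linarith
  have hnu : 0 < nu := by linarith
  set kap : ℝ := mu * Real.exp (-(1 / 10)) with hkap
  have hk : 0 < kap := by positivity
  have hkmu : kap * Real.exp (1 / 10) = mu := by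
    rw [hkap, mul_assoc, ← Real.exp_add]
    norm_num
  set α : ℝ := max (1 / 20) (Real.log (lam / kap)) with hα
  have hα1 : 1 / 20 ≤ α := le_max_left _ _
  have hα2 : α < 1 / 10 := by
    rw [hα]
    refine max_lt (by norm_num) ?_
    rcases hlam.eq_or_lt with h | h
    · rw [← h, zero_div, Real.log_zero]
      norm_num
    · rw [Real.log_lt_iff_lt_exp (by positivity), div_lt_iff₀ hk, mul_comm, hkmu]
      exact hlm
  obtain ⟨g, hg⟩ := h2 α (1 / 10) hα1 hα2 le_rfl
  obtain ⟨c, X0, hc, H⟩ := h1 α (1 / 10) g hα1 le_rfl hg (max 1 (2 * nu)) (le_max_left _ _)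
  obtain ⟨A0, hA0⟩ := Filter.eventually_atTop.1 (fin_num c kap X0 hc hk)
  refine ⟨c * kap / 8, by positivity, A0, fun a ha => ?_⟩
  obtain ⟨hX0, hX4, hlX, hl4, ha3, hL1, herr⟩ := hA0 a ha _ rfl
  set L := Real.log (a : ℝ) with hL
  set X : ℝ := kap * (a.totient : ℝ) * L with hX
  have ha0 : 0 < a := by omega
  have haR : (0 : ℝ) < a := by exact_mod_cast ha0
  have htot0 : (0 : ℝ) < (a.totient : ℝ) := by exact_mod_cast Nat.totient_pos.2 ha0
  have hXp : 0 < X := by linarith
  have hlogX : 0 ≤ Real.log X := Real.log_nonneg (by linarith)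
  set B : ℝ := (a.totient : ℝ) * L with hB
  have hB0 : 0 < B := by positivity
  have hXB : X = kap * B := by
    rw [hX, hB]
    ring
  set K : ℕ := ⌊nu * B / a⌋₊ with hK
  have hKle : (K : ℝ) ≤ nu * B / a := Nat.floor_le (by positivity)
  have hKc : (K : ℝ) * ((a : ℝ) / a.totient) ≤ max 1 (2 * nu) * Real.log X := by
    calc (K : ℝ) * ((a : ℝ) / a.totient) ≤ nu * B / a * ((a : ℝ) / a.totient) :=
          mul_le_mul_of_nonneg_right hKle (by positivity)
      _ = nu * L := by
          rw [hB]
          field_simp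
      _ ≤ nu * (2 * Real.log X) := mul_le_mul_of_nonneg_left hlX hnu.le
      _ = 2 * nu * Real.log X := by ring
      _ ≤ _ := mul_le_mul_of_nonneg_right (le_max_right _ _) hlogX
  have hG := H X hX0 a K ha0 hlX hKc
  -- the good primes of positive weight
  set G0 := (PA X).filter (fun n => gda a K (√X) n ∧ wp g X n ≠ 0) with hG0
  have hG0c : c * kap / 4 * a.totient ≤ (G0.card : ℝ) := by
    have e1 : ∑ n ∈ (PA X).filter (fun n => gda a K (√X) n), wp g X n ≤
        (G0.card : ℝ) * (4 * L) := by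
      have e2 : ∑ n ∈ (PA X).filter (fun n => gda a K (√X) n), wp g X n = ∑ n ∈ G0, wp g X n := by
        rw [hG0, ← Finset.filter_filter, Finset.sum_filter_ne_zero]
      rw [e2, ← nsmul_eq_mul]
      refine Finset.sum_le_card_nsmul _ _ _ fun n hn => ?_
      exact (fin_wp hg (by linarith) (Finset.mem_filter.1 hn).1).trans hl4
    have e3 := hG.trans e1
    have hL0 : 0 < L := by linarith
    have e4 : c * kap / 4 * a.totient * (4 * L) = c * X := by
      rw [hX]
      ring
    rw [← e4] at e3
    exact le_of_mul_le_mul_right e3 (by positivity)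
  -- the exceptions
  set E1 := a.primeFactors with hE1
  set E2 := (range (⌊√X⌋₊ + 1)).biUnion
    (fun q => (range (NX X + 1)).filter (fun n => n ≡ q [MOD a])) with hE2
  have hE1c : (E1.card : ℝ) ≤ L + 2 := fin_omega a ha0
  have hE2c : (E2.card : ℝ) ≤ (√X + 1) * ((4 * X + 1) / a + 1) := by
    have e1 : (E2.card : ℝ) ≤ ∑ q ∈ range (⌊√X⌋₊ + 1),
        (((range (NX X + 1)).filter (fun n => n ≡ q [MOD a])).card : ℝ) := by
      exact_mod_cast Finset.card_biUnion_le
    refine e1.trans ?_
    have hNX : (NX X : ℝ) ≤ 4 * X := Nat.floor_le (by linarith)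
    have e2 : ∀ q ∈ range (⌊√X⌋₊ + 1),
        (((range (NX X + 1)).filter (fun n => n ≡ q [MOD a])).card : ℝ) ≤
          (4 * X + 1) / a + 1 := by
      intro q _
      refine (fin_cls (NX X) a q ha0).trans ?_
      gcongr
    refine (Finset.sum_le_sum e2).trans ?_
    rw [Finset.sum_const, card_range, nsmul_eq_mul]
    have e3 : ((⌊√X⌋₊ + 1 : ℕ) : ℝ) ≤ √X + 1 := by
      push_cast
      have := Nat.floor_le (Real.sqrt_nonneg X)
      linarith
    exact mul_le_mul_of_nonneg_right e3 (by positivity)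
  set G := (G0 \ E1) \ E2 with hGdef
  have hGc : c * kap / 8 * a.totient ≤ (G.card : ℝ) := by
    have e1 : G0.card ≤ G.card + E1.card + E2.card := by
      have f1 := Finset.le_card_sdiff E2 (G0 \ E1)
      have f2 := Finset.le_card_sdiff E1 G0
      rw [hGdef]
      omega
    have e2 : (G0.card : ℝ) ≤ G.card + E1.card + E2.card := by exact_mod_cast e1
    have e3 : (E1.card : ℝ) + E2.card ≤ c * kap / 8 * a.totient := by linarith
    have e4 : c * kap / 4 * a.totient = c * kap / 8 * a.totient + c * kap / 8 * a.totient := by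
      ring
    linarith
  -- the properties of the elements of G
  have hpr : ∀ n ∈ G, n.Prime ∧ ¬ n ∣ a ∧ lam * B < n ∧ (n : ℝ) ≤ mu * B ∧
      ∀ p' : ℕ, p'.Prime → p' ≡ n [MOD a] → (p' : ℝ) ≤ nu * B → p' = n := by
    intro n hn
    rw [hGdef, mem_sdiff, mem_sdiff, hG0, mem_filter] at hn
    obtain ⟨⟨⟨hPA, hgd, hwp⟩, hnE1⟩, hnE2⟩ := hn
    have hPA' := hPA
    unfold PA at hPA
    rw [mem_filter, mem_Icc] at hPA
    obtain ⟨⟨hn1, hnN⟩, hnp, hnX⟩ := hPA
    have hn0 : (0 : ℝ) < n := by exact_mod_cast hnp.pos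
    have hgne : g (Real.log (n / X)) ≠ 0 := by
      intro h
      apply hwp
      unfold wp
      rw [if_pos hnp, h, mul_zero]
    have hl : α < Real.log (n / X) := by
      by_contra h
      exact hgne (hg.zero _ (Or.inl (not_lt.1 h)))
    have hr : Real.log (n / X) < 1 / 10 := by
      by_contra h
      exact hgne (hg.zero _ (Or.inr (not_lt.1 h)))
    have hnXp : 0 < (n : ℝ) / X := by positivity
    have hlow : lam * B < n := by
      rcases hlam.eq_or_lt with h | h
      · rw [← h, zero_mul]
        exact hn0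
      · have h3 : Real.log (lam / kap) < Real.log (n / X) := (le_max_right _ _).trans_lt hl
        have h4 : lam / kap < n / X := (Real.log_lt_log_iff (by positivity) hnXp).1 h3
        rw [lt_div_iff₀ hXp, hXB] at h4
        have h5 : lam / kap * (kap * B) = lam * B := by field_simp
        rwa [h5] at h4
    have hup : (n : ℝ) ≤ mu * B := by
      rw [Real.log_lt_iff_lt_exp hnXp, div_lt_iff₀ hXp, hXB] at hr
      have h5 : Real.exp (1 / 10) * (kap * B) = mu * B := by
        rw [← hkmu]
        ring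
      rw [h5] at hr
      exact hr.le
    refine ⟨hnp, ?_, hlow, hup, ?_⟩
    · intro hd
      exact hnE1 (Nat.mem_primeFactors.2 ⟨hnp, hd, ha0.ne'⟩)
    · intro p' hp' hmod hp'u
      by_contra hne
      obtain ⟨s, hs⟩ : (a : ℤ) ∣ (p' : ℤ) - n := by
        have := (Nat.modEq_iff_dvd.1 hmod.symm)
        exact this
      have hs' : (p' : ℤ) = n + s * a := by linarith
      have hs0 : s ≠ 0 := by
        rintro rfl
        apply hne
        have : (p' : ℤ) = n := by linarith
        exact_mod_cast this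
      have hp0 : (0 : ℝ) < p' := by exact_mod_cast hp'.pos
      have hsK : |s| ≤ (K : ℤ) := by
        have e1 : |(s : ℝ)| * a ≤ nu * B := by
          have e2 : (p' : ℝ) = n + s * a := by exact_mod_cast hs'
          have e3 : |(s : ℝ)| * a = |(p' : ℝ) - n| := by
            rw [e2, add_sub_cancel_left, abs_mul, abs_of_pos haR]
          rw [e3, abs_le]
          have e4 : mu * B ≤ nu * B := mul_le_mul_of_nonneg_right hmn hB0.le
          constructor
          · linarith
          · linarith
        have e5 : ((s.natAbs : ℕ) : ℝ) ≤ nu * B / a := by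
          rw [le_div_iff₀ haR, Nat.cast_natAbs, Int.cast_abs]
          exact e1
        have e6 : s.natAbs ≤ K := Nat.le_floor e5
        rw [Int.abs_eq_natAbs]
        exact_mod_cast e6
      obtain ⟨q, hq, hqX, hqd⟩ := hgd s hs0 hsK
      rw [← hs'] at hqd
      have hqp : q = p' := (Nat.prime_dvd_prime_iff_eq hq hp').1 (by exact_mod_cast hqd)
      apply hnE2
      rw [hE2, mem_biUnion]
      refine ⟨p', ?_, ?_⟩
      · rw [mem_range]
        have : p' ≤ ⌊√X⌋₊ := Nat.le_floor (by rw [← hqp]; exact hqX)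
        omega
      · rw [mem_filter, mem_range]
        exact ⟨by omega, hmod.symm⟩
  -- the classes
  refine hGc.trans ?_
  have hBm : ∀ x : ℝ, x * (a.totient : ℝ) * L = x * B := fun x => by
    rw [hB]
    ring
  have hcard : G.card ≤ ((Ico 1 a).filter (fun b => Nat.Coprime a b ∧
      ∃ p : ℕ, p.Prime ∧ p ≡ b [MOD a] ∧ lam * (a.totient : ℝ) * L < p ∧
        (p : ℝ) ≤ mu * (a.totient : ℝ) * L ∧
        ∀ p' : ℕ, p'.Prime → p' ≡ b [MOD a] → (p' : ℝ) ≤ nu * (a.totient : ℝ) * L →
          p' = p)).card := by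
    refine Finset.card_le_card_of_injOn (fun n => n % a) ?_ ?_
    · intro n hn
      obtain ⟨p1, p2, p3, p4, p5⟩ := hpr n hn
      have hcop : Nat.Coprime a (n % a) := by
        have h3 : Nat.Coprime n a := (Nat.Prime.coprime_iff_not_dvd p1).2 p2
        have h4 : Nat.gcd (n % a) a = 1 := by
          rw [← Nat.gcd_rec, Nat.gcd_comm]
          exact h3
        rw [Nat.coprime_comm]
        exact h4
      have hmodn : n ≡ n % a [MOD a] := (Nat.mod_modEq n a).symm
      rw [Finset.mem_coe, mem_filter, mem_Ico]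
      refine ⟨⟨?_, Nat.mod_lt _ ha0⟩, hcop, n, p1, hmodn, ?_, ?_, ?_⟩
      · rw [Nat.one_le_iff_ne_zero]
        intro h0
        simp only at h0
        rw [h0, Nat.coprime_zero_right] at hcop
        omega
      · rw [hBm]
        exact p3
      · rw [hBm]
        exact p4
      · intro p' hp' hmod hle
        rw [hBm] at hle
        exact p5 p' hp' (hmod.trans hmodn.symm) hle
    · intro n hn n' hn' heq
      obtain ⟨p1, p2, p3, p4, p5⟩ := hpr n hn
      obtain ⟨q1, q2, q3, q4, q5⟩ := hpr n' hn'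
      have h3 : n ≡ n' [MOD a] := heq
      exact q5 n p1 h3 (p4.trans (mul_le_mul_of_nonneg_right hmn hB0.le))
  exact_mod_cast hcard

end Pool.Agent.PTa
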