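import Pool.Agent.Lib.PTa.Defs

/-!
# The numbers `t + s a` make a hitting system of single unit classes
-/

set_option autoImplicit false

namespace Pool.Agent.PTa

open Finset Pool.Agent.GapSieve Pool.Agent.PosProp Pool.Agent.PTr

/-- a nonzero integer of absolute value less than `q` is not divisible by `q` -/
private lemma hitA_small (q : ℕ) (z : ℤ) (hz : z ≠ 0) (h : |z| < (q : ℤ)) : ¬ (q : ℤ) ∣ z := by
  intro hd
  exact hz (Int.eq_zero_of_abs_lt_dvd hd h)

private lemma hitA_cnt (q : ℕ) (hp : q.Prime) (u : ℤ) :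
    ∀ [DecidablePred fun t : ℕ => (q : ℤ) ∣ t + u],
      ((range q).filter fun t : ℕ => (q : ℤ) ∣ t + u).card = 1 := by
  intro _
  have : Fact q.Prime := ⟨hp⟩
  rw [card_eq_one]
  refine ⟨(-((u : ℤ) : ZMod q)).val, ?_⟩
  ext t
  rw [mem_filter, mem_range, mem_singleton]
  have key : (q : ℤ) ∣ t + u ↔ ((t : ℕ) : ZMod q) = -((u : ℤ) : ZMod q) := by
    rw [← ZMod.intCast_zmod_eq_zero_iff_dvd]
    push_cast
    constructor
    · intro h
      linear_combination h
    · intro h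
      rw [h]
      ring
  constructor
  · rintro ⟨h1, h2⟩
    rw [← key.1 h2, ZMod.val_natCast, Nat.mod_eq_of_lt h1]
  · intro h
    rw [h]
    refine ⟨ZMod.val_lt _, ?_⟩
    rw [← h, key, h, ZMod.natCast_zmod_val]

/-- **HitA** -/
theorem HitA_p : HitAStmt := by
  intro a Z K N y s hK hN hinj hs
  have hlt : ∀ q ∈ Qa a Z y, (Z : ℤ) < (q : ℤ) := fun q hq => by
    exact_mod_cast (mem_Qa.1 hq).1
  have hK' : 2 * (K : ℤ) ≤ (Z : ℤ) := by exact_mod_cast hK
  have hqs : ∀ q ∈ Qa a Z y, ∀ i, ¬ (q : ℤ) ∣ s i := fun q hq i => by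
    refine hitA_small q _ (hs i).1 ?_
    have h1 := hlt q hq
    have h2 := (hs i).2
    have h3 : (0 : ℤ) ≤ K := by positivity
    linarith
  have hqa : ∀ q ∈ Qa a Z y, ¬ (q : ℤ) ∣ (a : ℤ) := fun q hq h => by
    exact (mem_Qa.1 hq).2.2.2 (by exact_mod_cast h)
  have hun : ∀ q ∈ Qa a Z y, ∀ (i : Fin N) (t : ℕ), (q : ℤ) ∣ t + s i * a → ¬ q ∣ t := by
    intro q hq i t h1 h2
    have h3 : (q : ℤ) ∣ (t : ℤ) := by exact_mod_cast h2
    have h4 : (q : ℤ) ∣ s i * a := (Int.dvd_add_right h3).1 h1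
    have hpi : Prime (q : ℤ) := Nat.prime_iff_prime_int.1 (mem_Qa.1 hq).2.2.1
    rcases hpi.dvd_or_dvd h4 with h5 | h5
    · exact hqs q hq i h5
    · exact hqa q hq h5
  refine ⟨⟨?_, ?_, ?_, ?_, ?_, ?_⟩, ?_, ?_⟩
  · intro q hq
    exact (mem_Qa.1 hq).2.2.1.pos
  · intro q hq q' hq' hne
    exact (Nat.coprime_primes (mem_Qa.1 hq).2.2.1 (mem_Qa.1 hq').2.2.1).2 hne
  · intro q _ i t
    show (q : ℤ) ∣ ((t + q : ℕ) : ℤ) + s i * a ↔ (q : ℤ) ∣ (t : ℤ) + s i * a
    have h1 : ((t + q : ℕ) : ℤ) + s i * a = ((t : ℤ) + s i * a) + (q : ℤ) := by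
      push_cast
      ring
    rw [h1]
    exact Int.dvd_add_left dvd_rfl
  · intro q hq i
    unfold hitCount
    exact @hitA_cnt q (mem_Qa.1 hq).2.2.1 (s i * a) (fun a => Classical.propDecidable _)
  · intro q hq i j t h1 h2
    have hp := (mem_Qa.1 hq).2.2.1
    have hpi : Prime (q : ℤ) := Nat.prime_iff_prime_int.1 hp
    have h3 : (q : ℤ) ∣ (s i - s j) * (a : ℤ) := by
      have h4 := Int.dvd_sub h1 h2
      have h5 : (t : ℤ) + s i * (a : ℤ) - ((t : ℤ) + s j * (a : ℤ)) = (s i - s j) * (a : ℤ) := by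
        ring
      rwa [h5] at h4
    rcases hpi.dvd_or_dvd h3 with h4 | h4
    · apply hinj
      by_contra hne
      refine hitA_small q _ (sub_ne_zero.2 hne) ?_ h4
      have h5 := abs_sub (s i) (s j)
      have h6 := (hs i).2
      have h7 := (hs j).2
      have h8 := hlt q hq
      linarith
    · exact absurd h4 (hqa q hq)
  · intro q hq
    have := (mem_Qa.1 hq).1
    show N * 1 < q
    omega
  · intro q hq
    exact (mem_Qa.1 hq).2.2.1
  · exact hun

end Pool.Agent.PTa
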