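import Pool.Agent.Lib.PosProp.App4

/-!
# Translates of arbitrary sets without primes, in short intervals

Let `M` be any set of at most `lam (φ(a) / a) log x` integers of size at most `x ^ 2`. In every
interval of length `H` a positive proportion of the integers `b` coprime to `a` have no prime
`|m + b|`, `m ∈ M`.
-/

set_option autoImplicit false

open Finset Pool.Agent.GapSieve Pool.Agent.PosProp

namespace Pool.Agent.PTa

/-- the product of `a` and of the differences of the elements of `M` -/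
private noncomputable def DM (a : ℕ) (M : Finset ℤ) : ℕ :=
  a * ∏ m ∈ M, ∏ m' ∈ M.erase m, (m - m').natAbs

private lemma DM_ne (a : ℕ) (M : Finset ℤ) (ha : a ≠ 0) : DM a M ≠ 0 := by
  unfold DM
  refine mul_ne_zero ha ?_
  rw [Finset.prod_ne_zero_iff]
  intro m _
  rw [Finset.prod_ne_zero_iff]
  intro m' hm'
  exact Int.natAbs_ne_zero.2 (sub_ne_zero.2 (Finset.mem_erase.1 hm').1.symm)

private lemma DM_card (a : ℕ) (M : Finset ℤ) (ha : a ≠ 0) (L : ℝ) (hL : 1 ≤ L)
    (haL : Real.log a ≤ L) (hM : ∀ m ∈ M, |(m : ℝ)| ≤ Real.exp (2 * L)) :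
    ((DM a M).primeFactors.card : ℝ) ≤ 2 * (L + (M.card : ℝ) ^ 2 * (3 * L)) := by
  have haR : (0 : ℝ) < a := by exact_mod_cast Nat.pos_of_ne_zero ha
  have h1 : ∀ m ∈ M, ∀ m' ∈ M, (((m - m').natAbs : ℕ) : ℝ) ≤ Real.exp (3 * L) := by
    intro m hm m' hm'
    rw [Nat.cast_natAbs, Int.cast_abs, Int.cast_sub]
    refine (abs_sub _ _).trans ?_
    have h2 : 2 ≤ Real.exp L := by
      have := Real.add_one_le_exp L
      linarith
    calc |(m : ℝ)| + |(m' : ℝ)| ≤ Real.exp (2 * L) + Real.exp (2 * L) :=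
          add_le_add (hM m hm) (hM m' hm')
      _ = 2 * Real.exp (2 * L) := by ring
      _ ≤ Real.exp L * Real.exp (2 * L) := mul_le_mul_of_nonneg_right h2 (Real.exp_pos _).le
      _ = Real.exp (3 * L) := by
          rw [← Real.exp_add]
          congr 1
          ring
  have h3 : (((DM a M : ℕ)) : ℝ) ≤ a * (Real.exp (3 * L) ^ M.card) ^ M.card := by
    unfold DM
    rw [Nat.cast_mul]
    refine mul_le_mul_of_nonneg_left ?_ haR.le
    rw [Nat.cast_prod, ← Finset.prod_const]
    refine Finset.prod_le_prod (fun m _ => Nat.cast_nonneg _) ?_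
    intro m hm
    rw [Nat.cast_prod]
    calc ∏ m' ∈ M.erase m, (((m - m').natAbs : ℕ) : ℝ)
        ≤ ∏ m' ∈ M.erase m, Real.exp (3 * L) :=
          Finset.prod_le_prod (fun m' _ => Nat.cast_nonneg _)
            (fun m' hm' => h1 m hm m' (Finset.mem_of_mem_erase hm'))
      _ = Real.exp (3 * L) ^ (M.erase m).card := by rw [Finset.prod_const]
      _ ≤ Real.exp (3 * L) ^ M.card :=
          pow_le_pow_right₀ (Real.one_le_exp (by positivity))
            (Finset.card_le_card (Finset.erase_subset _ _))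
  have hpos : (0 : ℝ) < ((DM a M : ℕ) : ℝ) := by
    exact_mod_cast Nat.pos_of_ne_zero (DM_ne a M ha)
  have h4 := Real.log_le_log hpos h3
  rw [Real.log_mul haR.ne' (by positivity), Real.log_pow, Real.log_pow, Real.log_exp] at h4
  have h5 : (2 : ℝ) ^ (DM a M).primeFactors.card ≤ ((DM a M : ℕ) : ℝ) := by
    exact_mod_cast LPAP.two_pow_card_primeFactors_le (DM_ne a M ha)
  have h6 := Real.log_le_log (by positivity) h5
  rw [Real.log_pow] at h6
  have h7 : (1 : ℝ) / 2 ≤ Real.log 2 := by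
    have := Real.log_two_gt_d9
    linarith
  have h8 : ((DM a M).primeFactors.card : ℝ) * (1 / 2) ≤
      ((DM a M).primeFactors.card : ℝ) * Real.log 2 :=
    mul_le_mul_of_nonneg_left h7 (Nat.cast_nonneg _)
  have h9 : (M.card : ℝ) * ((M.card : ℝ) * (3 * L)) = (M.card : ℝ) ^ 2 * (3 * L) := by ring
  rw [h9] at h4
  linarith

private lemma cnt_one (q : ℕ) (hp : q.Prime) (m : ℤ) :
    ∀ [DecidablePred fun t : ℕ => (q : ℤ) ∣ m + t],
      ((range q).filter fun t : ℕ => (q : ℤ) ∣ m + t).card = 1 := by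
  intro _
  have : Fact q.Prime := ⟨hp⟩
  rw [card_eq_one]
  refine ⟨(-((m : ℤ) : ZMod q)).val, ?_⟩
  ext t
  rw [mem_filter, mem_range, mem_singleton]
  have key : (q : ℤ) ∣ m + t ↔ ((t : ℕ) : ZMod q) = -((m : ℤ) : ZMod q) := by
    rw [← ZMod.intCast_zmod_eq_zero_iff_dvd]
    push_cast
    constructor
    · intro h
      linear_combination h
    · intro h
      rw [h]
      ring
  constructor
  · rintro ⟨h1, h2⟩
    rw [← key.1 h2, ZMod.val_natCast, Nat.mod_eq_of_lt h1]
  · intro h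
    rw [h]
    refine ⟨ZMod.val_lt _, ?_⟩
    rw [← h, key, h, ZMod.natCast_zmod_val]

private lemma hitSys_M {a Z N : ℕ} {y : ℝ} {M : Finset ℤ} (hN : N ≤ Z) (m : Fin N → ℤ)
    (hinj : Function.Injective m) (hm : ∀ i, m i ∈ M) :
    HitSys (Qa (DM a M) Z y) (fun _ => 1) (fun q (i : Fin N) t => (q : ℤ) ∣ m i + t) := by
  refine ⟨?_, ?_, ?_, ?_, ?_, ?_⟩
  · intro q hq
    exact (mem_Qa.1 hq).2.2.1.pos
  · intro q hq q' hq' hne
    exact (Nat.coprime_primes (mem_Qa.1 hq).2.2.1 (mem_Qa.1 hq').2.2.1).2 hne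
  · intro q _ i t
    show (q : ℤ) ∣ m i + ((t + q : ℕ) : ℤ) ↔ (q : ℤ) ∣ m i + (t : ℤ)
    have h1 : m i + ((t + q : ℕ) : ℤ) = (m i + (t : ℤ)) + (q : ℤ) := by
      push_cast
      ring
    rw [h1]
    exact Int.dvd_add_left dvd_rfl
  · intro q hq i
    unfold hitCount
    exact @cnt_one q (mem_Qa.1 hq).2.2.1 (m i) (fun a => Classical.propDecidable _)
  · intro q hq i j t h1 h2
    by_contra hne
    have hne' : m i ≠ m j := fun h => hne (hinj h)
    have h3 : (q : ℤ) ∣ m i - m j := by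
      have h4 : m i - m j = (m i + (t : ℤ)) - (m j + (t : ℤ)) := by ring
      rw [h4]
      exact Int.dvd_sub h1 h2
    have h5 : (m i - m j).natAbs ∣ DM a M := by
      have e1 : m j ∈ M.erase (m i) := Finset.mem_erase.2 ⟨hne'.symm, hm j⟩
      have e2 := Finset.dvd_prod_of_mem (fun m' : ℤ => (m i - m').natAbs) e1
      have e3 := Finset.dvd_prod_of_mem
        (fun m0 : ℤ => ∏ m' ∈ M.erase m0, (m0 - m').natAbs) (hm i)
      exact Dvd.dvd.mul_left (e2.trans e3) _
    exact (mem_Qa.1 hq).2.2.2 ((Int.natCast_dvd.1 h3).trans h5)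
  · intro q hq
    have := (mem_Qa.1 hq).1
    show N * 1 < q
    omega

open Classical in
/-- `PosProp.class_count2` for the translates of a set `S` of integers -/
private lemma class_count4 {lam K0 K : ℝ} (hUD : UD (2 * Real.exp 9) 6 K0 K) (hlam : 1 ≤ lam)
    {a : ℕ} (ha : a ≠ 0) {M : Finset ℤ} {LX : ℝ} {Z Y X : ℕ} (hZ : 3 ≤ Z)
    (hlZ : Real.exp (K * lam) * Real.log Z ≤ LX) (hω : (DM a M).primeFactors.card ≤ Z)
    (S : Finset ℤ) (hS : S ⊆ M) (hS0 : S.Nonempty) (hN1 : 2 * S.card ≤ Z)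
    (hN2 : S.card * Real.log Z ≤ lam * LX) (hN3 : (S.card : ℝ) ^ 2 * (4 / Z) ≤ 1 / 80000)
    {W : ℕ} (hW : 0 < W) (hWa : W.Coprime a) (hWq : ∀ q, q.Prime → Z < q → W.Coprime q)
    (hYX : Y ≤ X)
    (hE : 2 ^ a.primeFactors.card * Real.exp (LX / 2) ≤ ((X : ℝ) - Y) / W * (a.totient / a))
    (b0 : ℕ) :
    Real.exp (-Real.exp (K * lam)) * (((X : ℝ) - Y) / W * (a.totient / a)) ≤
      (((LPAP.Bset Y X a W b0).filter (fun b => ∀ m ∈ S, ∃ q : ℕ, q.Prime ∧
        (q : ℝ) ≤ Real.exp (LX / (K0 * lam)) ∧ (q : ℤ) ∣ m + (b : ℕ))).card : ℝ) := by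
  classical
  set N := S.card with hN
  have hN0 : 0 < N := card_pos.2 hS0
  set n : Fin N → ℤ := fun i => S.orderEmbOfFin rfl i with hn
  have hnS : ∀ i, n i ∈ S := fun i => orderEmbOfFin_mem S rfl i
  have hinj : Function.Injective n := (S.orderEmbOfFin rfl).injective
  have hZR : (3 : ℝ) ≤ Z := by exact_mod_cast hZ
  have hD0 : DM a M ≠ 0 := DM_ne a M ha
  have hlZ1 : 1 ≤ Real.log Z := by
    rw [Real.le_log_iff_exp_le (by linarith)]
    have := Real.exp_one_lt_d9
    linarith
  have hsys := hitSys_M (a := a) (Z := Z) (y := LX / (K0 * lam)) (M := M) (N := N)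
    (by omega) n hinj (fun i => hS (hnS i))
  have key := hUD lam hlam N (Qa (DM a M) Z (LX / (K0 * lam))) (fun _ => 1)
    (fun q (i : Fin N) t => (q : ℤ) ∣ n i + t) LX
    (Real.log Z) hsys hN0 hlZ1 hlZ hN2 ?_ ?_ ?_ ?_ ?_ ?_ ?_
    (LPAP.Bset Y X a W b0) (((X : ℝ) - Y) / W * (a.totient / a)) (2 ^ a.primeFactors.card)
    ?_ (by positivity) ?_ hE
  · refine key.trans ?_
    refine Nat.cast_le.2 (card_le_card ?_)
    intro b hb
    simp only [mem_filter] at hb ⊢
    obtain ⟨h1, h2⟩ := hb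
    refine ⟨h1, fun m hm => ?_⟩
    obtain ⟨i, hi⟩ : ∃ i, n i = m := by
      have h3 : m ∈ Set.range (S.orderEmbOfFin rfl) := by
        rw [range_orderEmbOfFin]
        exact hm
      exact h3
    obtain ⟨q, hq, hqd⟩ := h2 i
    obtain ⟨_, hq2, hq3, _⟩ := mem_Qa.1 hq
    rw [hi] at hqd
    exact ⟨q, hq3, hq2, hqd⟩
  · intro q hq
    exact Real.log_lt_log (by linarith) (by exact_mod_cast (mem_Qa.1 hq).1)
  · intro q hq
    obtain ⟨_, h2, h3, _⟩ := mem_Qa.1 hq
    rw [Real.log_le_iff_le_exp (by exact_mod_cast h3.pos)]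
    exact h2
  · intro q hq
    have h1 := (mem_Qa.1 hq).1
    have h2 := pp_one_le (N := N) (q := q) hN0 (by omega)
    refine h2.trans ?_
    have h4 : 4 ≤ q := by omega
    have h5 : (4 : ℝ) ≤ q := by exact_mod_cast h4
    rw [div_le_div_iff₀ (by linarith) (by norm_num)]
    linarith
  · intro u v hu huv hv
    exact Qa_H1 hD0 hZ hω hN0 hN1 u v hu huv hv
  · intro v hv _
    exact Qa_H2 hN0 hN1 v hv
  · refine (Qa_inv_sq (by omega)).trans ?_
    rw [div_le_one (by linarith)]
    linarith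
  · have h1 := Qa_pp_sq (a := DM a M) (Z := Z) (y := LX / (K0 * lam)) (by omega) hN0 hN1
    exact (mul_le_mul_of_nonneg_left h1 (by positivity)).trans hN3
  · have h1 : (Y : ℝ) ≤ X := by exact_mod_cast hYX
    have h2 : 0 ≤ (X : ℝ) - Y := by linarith
    positivity
  · refine equiD_Bset ha hYX b0 hW hWa ?_ ?_
    · refine Nat.Coprime.prod_left fun q hq => ?_
      obtain ⟨_, _, h3, h4⟩ := mem_Qa.1 hq
      refine (Nat.Prime.coprime_iff_not_dvd h3).2 fun h5 => h4 ?_
      exact Dvd.dvd.mul_right h5 _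
    · refine Nat.Coprime.prod_right fun q hq => ?_
      obtain ⟨h1, _, h3, _⟩ := mem_Qa.1 hq
      exact hWq q h3 h1

private lemma gcd_dvd_of_modEq {u v W : ℤ} (h : u ≡ v [ZMOD W]) : Int.gcd u W ∣ Int.gcd v W := by
  have h1 : ((Int.gcd u W : ℕ) : ℤ) ∣ u := Int.gcd_dvd_left _ _
  have h2 : ((Int.gcd u W : ℕ) : ℤ) ∣ W := Int.gcd_dvd_right _ _
  have h3 : ((Int.gcd u W : ℕ) : ℤ) ∣ v - u := h2.trans h.dvd
  have h4 : ((Int.gcd u W : ℕ) : ℤ) ∣ v := by
    have h5 : v = (v - u) + u := by ring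
    rw [h5]
    exact dvd_add h3 h1
  exact Int.natCast_dvd_natCast.1 (Int.dvd_coe_gcd h4 h2)

private lemma gcd_eq_of_modEq {u v W : ℤ} (h : u ≡ v [ZMOD W]) : Int.gcd u W = Int.gcd v W :=
  Nat.dvd_antisymm (gcd_dvd_of_modEq h) (gcd_dvd_of_modEq h.symm)

/-- the number of classes `b0` modulo `W` in which `m + b0` is coprime to `W` -/
private lemma cop_shift (W : ℕ) (hW : 0 < W) (m : ℤ) :
    ((range W).filter (fun b0 : ℕ => Int.gcd (m + b0) W = 1)).card = W.totient := by
  have hWZ : (0 : ℤ) < W := by exact_mod_cast hW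
  obtain ⟨c, hc⟩ : ∃ c : ℕ, m ≡ c [ZMOD W] := by
    refine ⟨(m % W).toNat, ?_⟩
    have h1 : 0 ≤ m % (W : ℤ) := Int.emod_nonneg _ hWZ.ne'
    rw [Int.toNat_of_nonneg h1]
    exact (Int.mod_modEq _ _).symm
  have h1 : (range W).filter (fun b0 : ℕ => Int.gcd (m + b0) W = 1) =
      (range W).filter (fun b0 : ℕ => W.Coprime (c + b0)) := by
    apply filter_congr
    intro b0 _
    have h2 : m + (b0 : ℤ) ≡ ((c + b0 : ℕ) : ℤ) [ZMOD W] := by
      push_cast
      exact Int.ModEq.add_right _ hc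
    have h3 : Int.gcd (m + (b0 : ℤ)) W = Int.gcd ((c + b0 : ℕ) : ℤ) W := gcd_eq_of_modEq h2
    rw [h3, Int.gcd_natCast_natCast, Nat.coprime_comm]
  rw [h1, ← Nat.filter_coprime_Ico_eq_totient W c, card_filter, card_filter,
    sum_Ico_eq_sum_range]
  simp only [Nat.add_sub_cancel_left]

/-- half of the classes have few surviving sites -/
private lemma half_classes4 (M : Finset ℤ) (W : ℕ) (hW : 0 < W) :
    W ≤ 2 * ((range W).filter (fun b0 : ℕ =>
      (M.filter (fun m => Int.gcd (m + b0) W = 1)).card * W ≤ 2 * (M.card * W.totient))).card := by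
  classical
  rcases Nat.eq_zero_or_pos M.card with hU | hU
  · have h1 : (range W).filter (fun b0 : ℕ =>
      (M.filter (fun m => Int.gcd (m + b0) W = 1)).card * W ≤ 2 * (M.card * W.totient)) =
      range W := filter_true_of_mem fun b0 _ => by
        rw [Finset.card_eq_zero.1 hU]
        simp
    rw [h1, card_range]
    omega
  have hφ : 0 < W.totient := Nat.totient_pos.2 hW
  have h1 : ∑ b0 ∈ range W, (M.filter (fun m => Int.gcd (m + (b0 : ℕ)) W = 1)).card =
      M.card * W.totient := by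
    simp only [card_filter]
    rw [sum_comm]
    have h2 : ∀ m ∈ M, ∑ b0 ∈ range W,
        (if Int.gcd (m + (b0 : ℕ)) W = 1 then 1 else 0) = W.totient := by
      intro m _
      rw [← cop_shift W hW m, card_filter]
    rw [sum_congr rfl h2, sum_const, smul_eq_mul]
  set f : ℕ → ℕ := fun b0 => (M.filter (fun m => Int.gcd (m + (b0 : ℕ)) W = 1)).card with hf
  set bad := (range W).filter (fun b0 => ¬ f b0 * W ≤ 2 * (M.card * W.totient)) with hbad
  have h2 : 2 * (M.card * W.totient) * bad.card ≤ (M.card * W.totient) * W := by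
    calc 2 * (M.card * W.totient) * bad.card = ∑ _b0 ∈ bad, 2 * (M.card * W.totient) := by
          rw [sum_const, smul_eq_mul]; ring
      _ ≤ ∑ b0 ∈ bad, f b0 * W := sum_le_sum fun b0 hb0 => (not_le.1 (mem_filter.1 hb0).2).le
      _ ≤ ∑ b0 ∈ range W, f b0 * W := sum_le_sum_of_subset (filter_subset _ _)
      _ = _ := by rw [← sum_mul, h1]
  have h3 : 0 < M.card * W.totient := Nat.mul_pos hU hφ
  have h4 : 2 * bad.card ≤ W := by
    have h5 : (M.card * W.totient) * (2 * bad.card) ≤ (M.card * W.totient) * W := by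
      calc _ = 2 * (M.card * W.totient) * bad.card := by ring
        _ ≤ _ := h2
    exact Nat.le_of_mul_le_mul_left h5 h3
  have h6 := card_filter_add_card_filter_not (s := range W)
    (fun b0 => f b0 * W ≤ 2 * (M.card * W.totient))
  rw [card_range] at h6
  show W ≤ 2 * ((range W).filter (fun b0 => f b0 * W ≤ 2 * (M.card * W.totient))).card
  have h7 : ((range W).filter (fun b0 => ¬ f b0 * W ≤ 2 * (M.card * W.totient))).card =
    bad.card := rfl
  omega

/-- `PosProp.total_count` for the translates of a set `M` -/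
private lemma total_count4 {a w Y X : ℕ} {M : Finset ℤ} (P : ℕ → Prop) [DecidablePred P] {K : ℝ}
    (h : ∀ b0 < LPAP.Wp w a, (M.filter (fun m => Int.gcd (m + (b0 : ℕ)) (LPAP.Wp w a) = 1)).card *
      LPAP.Wp w a ≤ 2 * (M.card * (LPAP.Wp w a).totient) →
      K / LPAP.Wp w a ≤ (((LPAP.Bset Y X a (LPAP.Wp w a) b0).filter P).card : ℝ)) (hK : 0 ≤ K) :
    K / 2 ≤ (((Ioc Y X).filter (fun b => b.Coprime a ∧ P b)).card : ℝ) := by
  classical
  set W := LPAP.Wp w a with hWdef
  have hW : 0 < W := LPAP.Wp_pos w a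
  set G := (range W).filter (fun b0 : ℕ =>
      (M.filter (fun m => Int.gcd (m + b0) W = 1)).card * W ≤ 2 * (M.card * W.totient)) with hG
  have hhalf : W ≤ 2 * G.card := half_classes4 M W hW
  have hdisj : Set.PairwiseDisjoint (G : Set ℕ) (fun b0 => (LPAP.Bset Y X a W b0).filter P) := by
    intro x hx y hy hxy
    rw [Function.onFun, disjoint_left]
    intro b hb hb'
    have h1 : b ≡ x [MOD W] := (mem_filter.1 (mem_filter.1 hb).1).2.1
    have h2 : b ≡ y [MOD W] := (mem_filter.1 (mem_filter.1 hb').1).2.1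
    have hx' : x < W := mem_range.1 (mem_filter.1 hx).1
    have hy' : y < W := mem_range.1 (mem_filter.1 hy).1
    have h3 : x ≡ y [MOD W] := h1.symm.trans h2
    unfold Nat.ModEq at h3
    rw [Nat.mod_eq_of_lt hx', Nat.mod_eq_of_lt hy'] at h3
    exact hxy h3
  have hsub : G.biUnion (fun b0 => (LPAP.Bset Y X a W b0).filter P) ⊆
      (Ioc Y X).filter (fun b => b.Coprime a ∧ P b) := by
    intro b hb
    rw [mem_biUnion] at hb
    obtain ⟨b0, _, hb0⟩ := hb
    obtain ⟨h1, h2⟩ := mem_filter.1 hb0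
    obtain ⟨h3, _, h4⟩ := mem_filter.1 h1
    exact mem_filter.2 ⟨h3, h4, h2⟩
  have h1 := card_le_card hsub
  rw [card_biUnion hdisj] at h1
  have h2 : (G.card : ℝ) * (K / W) ≤ ∑ b0 ∈ G, (((LPAP.Bset Y X a W b0).filter P).card : ℝ) := by
    rw [← nsmul_eq_mul, ← sum_const]
    refine sum_le_sum fun b0 hb0 => ?_
    obtain ⟨h3, h4⟩ := mem_filter.1 hb0
    exact h b0 (mem_range.1 h3) h4
  have hWR : (0 : ℝ) < W := by exact_mod_cast hW
  have h3 : K / 2 ≤ (G.card : ℝ) * (K / W) := by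
    have h4 : (W : ℝ) ≤ 2 * G.card := by exact_mod_cast hhalf
    rw [← mul_div_assoc, div_le_div_iff₀ (by norm_num) hWR]
    nlinarith
  calc K / 2 ≤ _ := h3
    _ ≤ _ := h2
    _ ≤ _ := by exact_mod_cast h1

/-- `M ^ ω(a) ≤ M ^ M a` -/
private lemma pow_card_le (M a : ℕ) (hM : 1 ≤ M) (ha : a ≠ 0) :
    M ^ a.primeFactors.card ≤ M ^ M * a := by
  have h1 : M ^ a.primeFactors.card = ∏ _p ∈ a.primeFactors, M := by rw [Finset.prod_const]
  rw [h1, ← Finset.prod_filter_mul_prod_filter_not a.primeFactors (fun p => p ≤ M)]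
  have h2 : ∏ _p ∈ a.primeFactors.filter (fun p => p ≤ M), M ≤ M ^ M := by
    rw [Finset.prod_const]
    refine Nat.pow_le_pow_right hM ?_
    have h4 : a.primeFactors.filter (fun p => p ≤ M) ⊆ Finset.Icc 1 M := by
      intro p hp
      rw [Finset.mem_filter] at hp
      have h5 := (Nat.prime_of_mem_primeFactors hp.1).pos
      exact Finset.mem_Icc.2 ⟨h5, hp.2⟩
    have h5 := Finset.card_le_card h4
    rwa [Nat.card_Icc, Nat.add_sub_cancel] at h5
  have h3 : ∏ _p ∈ a.primeFactors.filter (fun p => ¬ p ≤ M), M ≤ a := by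
    calc ∏ _p ∈ a.primeFactors.filter (fun p => ¬ p ≤ M), M ≤
          ∏ p ∈ a.primeFactors.filter (fun p => ¬ p ≤ M), p :=
          Finset.prod_le_prod' fun p hp => by
            have := (Finset.mem_filter.mp hp).2
            omega
      _ ≤ ∏ p ∈ a.primeFactors, p := by
          apply Finset.prod_le_prod_of_subset_of_one_le' (Finset.filter_subset _ _)
          intro p hp _
          exact (Nat.prime_of_mem_primeFactors hp).one_lt.le
      _ ≤ a := Nat.le_of_dvd (Nat.pos_of_ne_zero ha) (Nat.prod_primeFactors_dvd a)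
  exact Nat.mul_le_mul h2 h3

/-- the number of prime factors of `a` is at most `√L + 1 + 2 L / log L`, `L ≥ log a` -/
private lemma omega_le (a : ℕ) (ha : a ≠ 0) (L : ℝ) (hL : Real.log a ≤ L) (hL1 : 3 ≤ L) :
    (a.primeFactors.card : ℝ) ≤ √L + 1 + 2 * L / Real.log L := by
  have hL0 : 0 < L := by linarith
  set M := ⌈√L⌉₊ with hM
  have hs1 : 1 < √L := by
    rw [Real.lt_sqrt (by norm_num)]
    linarith
  have hMge : √L ≤ M := Nat.le_ceil _
  have hMle : (M : ℝ) ≤ √L + 1 := (Nat.ceil_lt_add_one (Real.sqrt_nonneg L)).le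
  have hM1 : 1 ≤ M := by
    have : (0 : ℝ) < M := by linarith
    exact_mod_cast this
  have haR : (0 : ℝ) < a := by exact_mod_cast Nat.pos_of_ne_zero ha
  have hMR : (1 : ℝ) < M := by linarith
  have hlM : Real.log L / 2 ≤ Real.log M := by
    rw [← Real.log_sqrt hL0.le]
    exact Real.log_le_log (by linarith) hMge
  have hll : 0 < Real.log L := Real.log_pos (by linarith)
  have hlM0 : 0 < Real.log M := by linarith
  have h1 : ((M : ℝ) ^ a.primeFactors.card) ≤ (M : ℝ) ^ M * a := by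
    exact_mod_cast pow_card_le M a hM1 ha
  have h2 := Real.log_le_log (by positivity) h1
  rw [Real.log_pow, Real.log_mul (by positivity) haR.ne', Real.log_pow] at h2
  have h3 : ((a.primeFactors.card : ℝ) - M) * Real.log M ≤ L := by linarith
  have h4 : (a.primeFactors.card : ℝ) - M ≤ L / Real.log M := by
    rw [le_div_iff₀ hlM0]
    exact h3
  have h5 : L / Real.log M ≤ 2 * L / Real.log L := by
    rw [div_le_div_iff₀ hlM0 hll]
    nlinarith
  linarith

/-- the numeric facts for large `a`, with `r = L ^ (1/8)` -/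
private lemma exists_r : ∃ L0 : ℝ, ∀ L, L0 ≤ L → ∃ r : ℝ, 10 ^ 10 ≤ r ∧ r ^ 8 = L ∧
    Real.log L ≤ r ∧ Real.exp (Real.log L / 8) = r := by
  have hlog : ∀ᶠ x : ℝ in Filter.atTop, Real.log x ≤ x ^ ((1 : ℝ) / 8) := by
    have h6 := (isLittleO_log_rpow_atTop (by norm_num : (0 : ℝ) < 1 / 8)).def
      (c := 1) (by norm_num)
    filter_upwards [h6, Filter.eventually_ge_atTop 1] with x hx hx1
    rw [Real.norm_eq_abs, Real.norm_eq_abs, abs_of_nonneg (Real.log_nonneg hx1),
      abs_of_nonneg (by positivity), one_mul] at hx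
    exact hx
  have hrp : ∀ᶠ x : ℝ in Filter.atTop, (10 : ℝ) ^ 10 ≤ x ^ ((1 : ℝ) / 8) :=
    (tendsto_rpow_atTop (by norm_num : (0 : ℝ) < 1 / 8)).eventually_ge_atTop _
  obtain ⟨L0, h⟩ := Filter.eventually_atTop.1 ((hlog.and hrp).and (Filter.eventually_ge_atTop 1))
  refine ⟨L0, fun L hL => ?_⟩
  obtain ⟨⟨h1, h2⟩, h3⟩ := h L hL
  have hL0 : 0 < L := by linarith
  refine ⟨L ^ ((1 : ℝ) / 8), h2, ?_, h1, ?_⟩
  · rw [← Real.rpow_natCast, ← Real.rpow_mul hL0.le]
    norm_num
  · rw [Real.rpow_def_of_pos hL0]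
    congr 1
    ring

/-- the collected numerical facts -/
private lemma numFacts {K L Lh ll r lam : ℝ} (hK : 1 ≤ K) (hr : 10 ^ 10 ≤ r) (hrL : r ^ 8 = L)
    (hllr : ll ≤ r) (hll0 : 1 ≤ ll) (hlam : 1 ≤ lam) (hLh : Lh ≤ L)
    (hc : 1792 * K * (lam * L) ≤ Lh * ll) :
    1792 * r ^ 7 ≤ Lh ∧ K * (224 * (lam * L / Lh)) ≤ ll / 8 ∧ lam ≤ r ∧ 0 < Lh ∧
      1792 * L / ll ≤ Lh := by
  have hr0 : 0 < r := by
    have : (0 : ℝ) < 10 ^ 10 := by norm_num
    linarith
  have hL0 : 0 < L := by rw [← hrL]; positivity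
  have h1 : 1792 * L ≤ Lh * ll := by
    refine le_trans ?_ hc
    have h2 : 1 * 1 ≤ K * lam := mul_le_mul hK hlam zero_le_one (by linarith)
    have h3 : 1792 * L * 1 ≤ 1792 * L * (K * lam) := mul_le_mul_of_nonneg_left (by linarith)
      (by positivity)
    calc 1792 * L = 1792 * L * 1 := by ring
      _ ≤ 1792 * L * (K * lam) := h3
      _ = _ := by ring
  have hll1 : 0 < ll := by linarith
  have hLh0 : 0 < Lh := by
    by_contra hcon
    push Not at hcon
    have := mul_nonpos_of_nonpos_of_nonneg hcon hll1.le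
    nlinarith
  have h4 : 1792 * L ≤ Lh * r := h1.trans (mul_le_mul_of_nonneg_left hllr hLh0.le)
  refine ⟨?_, ?_, ?_, hLh0, ?_⟩
  · have h5 : 1792 * r ^ 7 * r ≤ Lh * r := by
      calc 1792 * r ^ 7 * r = 1792 * r ^ 8 := by ring
        _ = 1792 * L := by rw [hrL]
        _ ≤ _ := h4
    exact le_of_mul_le_mul_right h5 hr0
  · have h6 : K * (224 * (lam * L / Lh)) = (1792 * K * (lam * L)) / Lh / 8 := by ring
    rw [h6]
    have h7 : (1792 * K * (lam * L)) / Lh ≤ ll := by
      rw [div_le_iff₀ hLh0]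
      linarith
    linarith
  · have h8 : 1792 * K * (lam * L) ≤ L * r :=
      hc.trans (mul_le_mul hLh hllr hll1.le hL0.le)
    have h9 : lam * L ≤ 1792 * K * (lam * L) := by
      have : 1 ≤ 1792 * K := by linarith
      exact le_mul_of_one_le_left (by positivity) this
    have h10 : lam * L ≤ r * L := by linarith
    exact le_of_mul_le_mul_right h10 hL0
  · rw [div_le_iff₀ hll1]
    exact h1


/-- the elements `b` of an interval with `|m + b| ≤ s` for some `m` in `M` -/
private lemma exc_card (M : Finset ℤ) (Y X s : ℕ) :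
    ((Ioc Y X).filter (fun b : ℕ => ∃ m ∈ M, (m + (b : ℤ)).natAbs ≤ s)).card ≤
      M.card * (2 * s + 1) := by
  classical
  have h1 : (Ioc Y X).filter (fun b : ℕ => ∃ m ∈ M, (m + (b : ℤ)).natAbs ≤ s) ⊆
      M.biUnion (fun m => (Ioc Y X).filter (fun b : ℕ => (m + (b : ℤ)).natAbs ≤ s)) := by
    intro b hb
    obtain ⟨hb1, m, hm, hb2⟩ := mem_filter.1 hb
    exact mem_biUnion.2 ⟨m, hm, mem_filter.2 ⟨hb1, hb2⟩⟩
  refine (card_le_card h1).trans (card_biUnion_le.trans ?_)
  have h2 : ∀ m ∈ M, ((Ioc Y X).filter (fun b : ℕ => (m + (b : ℤ)).natAbs ≤ s)).card ≤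
      2 * s + 1 := by
    intro m _
    have h3 : ((Ioc Y X).filter (fun b : ℕ => (m + (b : ℤ)).natAbs ≤ s)).card ≤
        (Finset.Icc (-(s : ℤ)) s).card := by
      refine card_le_card_of_injOn (fun b : ℕ => m + (b : ℤ)) ?_ ?_
      · intro b hb
        have h4 := (mem_filter.1 hb).2
        rw [Finset.coe_Icc, Set.mem_Icc]
        show -(s : ℤ) ≤ m + (b : ℤ) ∧ m + (b : ℤ) ≤ s
        omega
      · intro b _ b' _ hbb
        have h5 : m + (b : ℤ) = m + (b' : ℤ) := hbb
        omega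
    rw [Int.card_Icc] at h3
    omega
  calc ∑ m ∈ M, ((Ioc Y X).filter (fun b : ℕ => (m + (b : ℤ)).natAbs ≤ s)).card
      ≤ ∑ _m ∈ M, (2 * s + 1) := sum_le_sum h2
    _ = M.card * (2 * s + 1) := by rw [sum_const, smul_eq_mul]

/-- the exceptional set is small -/
private lemma exc_small {r L Lh lam N s φ H k : ℝ} (hr : 10 ^ 10 ≤ r) (hrL : r ^ 8 = L)
    (hLh : 1792 * r ^ 7 ≤ Lh) (hlam : lam ≤ r) (hN : N ≤ lam * L + 1)
    (hs : s ≤ Real.exp (Lh / 2)) (hs0 : 0 ≤ s) (hφ : 1 / (2 * L + 1) ≤ φ)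
    (hH : Real.exp Lh = H) (hk : Real.exp k ≤ r) :
    N * (2 * s + 1) ≤ Real.exp (-Real.exp k) * (H * φ) / 4 := by
  have hr0 : 0 < r := by
    have : (0 : ℝ) < 10 ^ 10 := by norm_num
    linarith
  have hr1 : 1 ≤ r := by
    have : (1 : ℝ) ≤ 10 ^ 10 := by norm_num
    linarith
  have hL0 : 0 < L := by rw [← hrL]; positivity
  have h1 : N ≤ 2 * r ^ 9 := by
    have h2 : lam * L ≤ r * L := mul_le_mul_of_nonneg_right hlam hL0.le
    have h3 : r * L = r ^ 9 := by rw [← hrL]; ring
    have h4 : 1 ≤ r ^ 9 := one_le_pow₀ hr1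
    linarith
  have h2 : 2 * s + 1 ≤ 3 * Real.exp (Lh / 2) := by
    have h3 : 1 ≤ Real.exp (Lh / 2) := Real.one_le_exp (by
      have : 0 ≤ 1792 * r ^ 7 := by positivity
      linarith)
    linarith
  have h3 : N * (2 * s + 1) ≤ 2 * r ^ 9 * (3 * Real.exp (Lh / 2)) :=
    mul_le_mul h1 h2 (by linarith) (by positivity)
  refine h3.trans ?_
  have h4 : Real.exp (-r) ≤ Real.exp (-Real.exp k) := Real.exp_le_exp.2 (by linarith)
  have h5 : 1 / (3 * r ^ 8) ≤ φ := by
    refine le_trans ?_ hφ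
    refine one_div_le_one_div_of_le (by positivity) ?_
    rw [hrL]
    have : 1 ≤ L := by rw [← hrL]; exact one_le_pow₀ hr1
    linarith
  have h6 : Real.exp (-r) * (Real.exp Lh * (1 / (3 * r ^ 8))) ≤
      Real.exp (-Real.exp k) * (H * φ) := by
    rw [← hH]
    exact mul_le_mul h4 (mul_le_mul_of_nonneg_left h5 (Real.exp_pos _).le) (by positivity)
      (Real.exp_pos _).le
  have h7 : 72 * r ^ 17 ≤ Real.exp (Lh / 2 - r) := by
    have h8 : r ^ 7 ≤ Lh / 2 - r := by
      have h9 : r ≤ r ^ 7 := by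
        calc r = r ^ 1 := (pow_one r).symm
          _ ≤ r ^ 7 := pow_le_pow_right₀ hr1 (by norm_num)
      linarith
    have h10 : 0 ≤ r ^ 7 := by positivity
    have h11 := Real.pow_div_factorial_le_exp (r ^ 7) h10 3
    have h12 : Real.exp (r ^ 7) ≤ Real.exp (Lh / 2 - r) := Real.exp_le_exp.2 h8
    have h13 : (r ^ 7) ^ 3 / ((Nat.factorial 3 : ℕ) : ℝ) = r ^ 17 * (r ^ 4 / 6) := by
      norm_num [Nat.factorial]
      ring
    rw [h13] at h11
    have h14 : (72 : ℝ) ≤ r ^ 4 / 6 := by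
      have h15 : r ≤ r ^ 4 := by
        calc r = r ^ 1 := (pow_one r).symm
          _ ≤ r ^ 4 := pow_le_pow_right₀ hr1 (by norm_num)
      have : (432 : ℝ) ≤ 10 ^ 10 := by norm_num
      linarith
    have h16 : r ^ 17 * 72 ≤ r ^ 17 * (r ^ 4 / 6) := mul_le_mul_of_nonneg_left h14 (by positivity)
    linarith
  have h8 : Real.exp (-r) * Real.exp Lh = Real.exp (Lh / 2) * Real.exp (Lh / 2 - r) := by
    rw [← Real.exp_add, ← Real.exp_add]
    congr 1
    ring
  have h9 : 2 * r ^ 9 * (3 * Real.exp (Lh / 2)) ≤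
      Real.exp (-r) * (Real.exp Lh * (1 / (3 * r ^ 8))) / 4 := by
    have h10 : Real.exp (-r) * (Real.exp Lh * (1 / (3 * r ^ 8))) / 4 =
        Real.exp (Lh / 2) * Real.exp (Lh / 2 - r) / (12 * r ^ 8) := by
      rw [← h8]
      field_simp
      norm_num
    rw [h10, le_div_iff₀ (by positivity)]
    calc 2 * r ^ 9 * (3 * Real.exp (Lh / 2)) * (12 * r ^ 8) =
          Real.exp (Lh / 2) * (72 * r ^ 17) := by ring
      _ ≤ _ := mul_le_mul_of_nonneg_left h7 (Real.exp_pos _).le
  linarith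

/-- a prime which has a small prime factor is small -/
private lemma small_of_prime {q z s : ℕ} {m : ℤ} (hq : q.Prime) (hqs : q ≤ s) (hqd : (q : ℤ) ∣ m)
    (hz : z = m.natAbs) (hp : z.Prime) : z ≤ s := by
  have h1 : q ∣ z := by
    rw [hz]
    exact Int.natCast_dvd.1 hqd
  have h2 := (Nat.prime_dvd_prime_iff_eq hq hp).1 h1
  omega

open Classical in
/-- Large gaps at all translates of a set, in all short intervals. -/
theorem translates : ∃ c : ℝ, 0 < c ∧ ∃ C : ℝ, ∃ x₀ : ℝ, ∀ x : ℝ, x₀ ≤ x → ∀ a : ℕ, 0 < a →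
    (a : ℝ) ≤ x → ∀ (lam : ℝ) (Y H : ℕ) (M : Finset ℤ), 1 ≤ lam → (H : ℝ) ≤ x →
    (∀ m ∈ M, |(m : ℝ)| ≤ x ^ 2) →
    (M.card : ℝ) ≤ lam * ((a.totient : ℝ) / a) * Real.log x →
    lam * Real.log x ≤ c * Real.log H * Real.log (Real.log x) →
    Real.exp (-Real.exp (C * (lam * Real.log x / Real.log H))) *
      ((H : ℝ) * ((a.totient : ℝ) / a)) ≤
      (((Ioc Y (Y + H)).filter (fun b : ℕ => b.Coprime a ∧
      ∀ m ∈ M, ¬ (m + (b : ℤ)).natAbs.Prime)).card : ℝ) := by
  have hC1 : 1 ≤ 2 * Real.exp 9 := by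
    have := Real.one_le_exp (show (0 : ℝ) ≤ 9 by norm_num)
    linarith
  obtain ⟨K0, K, hK0, hK1, hUD⟩ := exists_UD (C1 := 2 * Real.exp 9) (C2 := 6) hC1 (by norm_num)
  obtain ⟨L0, hL0⟩ := exists_r
  refine ⟨1 / (1792 * K), by positivity, 224 * K + 3, max (Real.exp L0) 4,
    fun x hx a ha hax lam Y H M hlam hH hMx hMc hlamu => ?_⟩
  have hx4 : 4 ≤ x := (le_max_right _ _).trans hx
  have hx0 : 0 < x := by linarith
  have ha0 : a ≠ 0 := by omega
  have haR : (0 : ℝ) < a := by exact_mod_cast ha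
  have hL : L0 ≤ Real.log x := by
    rw [Real.le_log_iff_exp_le hx0]
    exact (le_max_left _ _).trans hx
  obtain ⟨r, hr, hrL, hllr, hexpr⟩ := hL0 _ hL
  set L := Real.log x with hLdef
  have hlogaL : Real.log a ≤ L := Real.log_le_log haR hax
  have hr0 : 0 < r := by
    have : (0 : ℝ) < 10 ^ 10 := by norm_num
    linarith
  have hr1 : 1 ≤ r := by
    have : (1 : ℝ) ≤ 10 ^ 10 := by norm_num
    linarith
  have hrk : ∀ k : ℕ, 1 ≤ r ^ k := fun k => one_le_pow₀ hr1
  have hrmono : ∀ k : ℕ, k ≤ 8 → r ^ k ≤ L := fun k hk => by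
    rw [← hrL]
    exact pow_le_pow_right₀ hr1 hk
  have n1 : 10000 ≤ L := by
    have := hrmono 1 (by norm_num)
    have : (10000 : ℝ) ≤ 10 ^ 10 := by norm_num
    linarith
  have hLx : Real.exp L = x := Real.exp_log hx0
  have hLpos : 0 < L := by linarith
  set ll := Real.log L with hll
  have hll1 : 1 ≤ ll := by
    rw [hll, Real.le_log_iff_exp_le hLpos]
    have := Real.exp_one_lt_d9
    linarith
  have hll0 : 0 < ll := by linarith
  set Lh := Real.log (H : ℝ) with hLh
  have hc' : 1792 * K * (lam * L) ≤ Lh * ll := by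
    have h1 := mul_le_mul_of_nonneg_left hlamu (show 0 ≤ 1792 * K by linarith)
    have h2 : 1792 * K * (1 / (1792 * K) * Lh * ll) = Lh * ll := by field_simp
    rwa [h2] at h1
  have hH0 : 0 < H := by
    rcases Nat.eq_zero_or_pos H with h | h
    · rw [h, Nat.cast_zero, Real.log_zero] at hLh
      rw [hLh, zero_mul] at hc'
      have : 0 < 1792 * K * (lam * L) := by positivity
      linarith
    · exact h
  have hHR : (0 : ℝ) < H := by exact_mod_cast hH0
  have hLhL : Lh ≤ L := Real.log_le_log hHR hH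
  have hLha : Real.exp Lh = H := Real.exp_log hHR
  obtain ⟨f1, f2, f3, f4, f5⟩ := numFacts hK1 hr hrL hllr hll1 hlam hLhL hc'
  have hKlam : lam ≤ K * lam := le_mul_of_one_le_left (by linarith) hK1
  have n2 : 14 * lam ≤ L := by
    have h1 : 14 * lam ≤ 14 * r := by linarith
    have h2 : 14 * r ≤ r ^ 2 := by
      have : (14 : ℝ) ≤ r := by
        have : (14 : ℝ) ≤ 10 ^ 10 := by norm_num
        linarith
      nlinarith
    have h3 := hrmono 2 (by norm_num)
    linarith
  -- the scale `Lh`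
  have hLh1 : 10000 * (2 * L + 1) ≤ Lh ^ 2 := by
    have h1 : (1792 * r ^ 7) ^ 2 ≤ Lh ^ 2 := pow_le_pow_left₀ (by positivity) f1 2
    have h2 : 10000 * (2 * L + 1) ≤ (1792 * r ^ 7) ^ 2 := by
      have h3 : (1792 * r ^ 7) ^ 2 = 3211264 * (r ^ 6 * r ^ 8) := by ring
      rw [h3, hrL]
      have h4 : 1 * L ≤ r ^ 6 * L := mul_le_mul_of_nonneg_right (hrk 6) hLpos.le
      linarith
    linarith
  have hLh2 : 1792 ≤ Lh := by
    have := hrk 7
    linarith
  have hLhpos : 0 < Lh := f4
  set w := ⌊Lh / 100⌋₊ with hw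
  set W := LPAP.Wp w a with hWdef
  have hW : 0 < W := LPAP.Wp_pos w a
  have hWR : (0 : ℝ) < W := by exact_mod_cast hW
  set Z := ⌈L⌉₊ ^ 4 with hZdef
  have hceil : L ≤ (⌈L⌉₊ : ℝ) := Nat.le_ceil _
  have hceil' : (⌈L⌉₊ : ℝ) ≤ L + 1 := (Nat.ceil_lt_add_one hLpos.le).le
  have hZL : L ^ 4 ≤ Z := by
    rw [hZdef]; push_cast
    exact pow_le_pow_left₀ hLpos.le hceil 4
  have hL34 : L ^ 3 ≤ L ^ 4 := pow_le_pow_right₀ (by linarith) (by norm_num)
  have hZbig : 1000 * L ≤ Z := by
    refine le_trans ?_ (hL34.trans hZL)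
    have h1 : 1000 ≤ L ^ 2 := by
      have : 100 * 100 ≤ L * L := mul_le_mul (by linarith) (by linarith) (by norm_num) hLpos.le
      rw [pow_two]; linarith
    calc 1000 * L ≤ L ^ 2 * L := mul_le_mul_of_nonneg_right h1 hLpos.le
      _ = L ^ 3 := by ring
  have hZ3 : 3 ≤ Z := by
    have : (3 : ℝ) ≤ Z := by linarith
    exact_mod_cast this
  have hlZ : Real.log Z ≤ 8 * ll := by
    have h1 : (⌈L⌉₊ : ℝ) ≤ L ^ 2 := by
      have : 2 * L ≤ L * L := mul_le_mul_of_nonneg_right (by linarith) hLpos.le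
      rw [pow_two]; linarith
    have h2 : (Z : ℝ) ≤ (L ^ 2) ^ 4 := by
      rw [hZdef]; push_cast
      exact pow_le_pow_left₀ (by positivity) h1 4
    calc Real.log Z ≤ Real.log ((L ^ 2) ^ 4) := Real.log_le_log (by positivity) h2
      _ = 8 * ll := by
          rw [← pow_mul, Real.log_pow]
          norm_num
          rfl
  have hφa : (a.totient : ℝ) / a ≤ 1 := by
    rw [div_le_one haR]
    exact_mod_cast Nat.totient_le a
  have hφa0 : 0 ≤ (a.totient : ℝ) / a := by positivity
  -- the set with `0`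
  set M' := insert 0 M with hM'def
  have hM'le : (M'.card : ℝ) ≤ lam * ((a.totient : ℝ) / a) * L + 1 := by
    have h1 : M'.card ≤ M.card + 1 := card_insert_le _ _
    have h2 : (M'.card : ℝ) ≤ (M.card : ℝ) + 1 := by exact_mod_cast h1
    linarith
  have hM'le' : (M'.card : ℝ) ≤ lam * L + 1 := by
    refine hM'le.trans ?_
    have h1 : lam * ((a.totient : ℝ) / a) ≤ lam * 1 := mul_le_mul_of_nonneg_left hφa (by linarith)
    have h2 := mul_le_mul_of_nonneg_right h1 hLpos.le
    linarith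
  have hMle' : (M.card : ℝ) ≤ lam * L + 1 := by
    have h1 : M.card ≤ M'.card := card_le_card (subset_insert _ _)
    have h2 : (M.card : ℝ) ≤ (M'.card : ℝ) := by exact_mod_cast h1
    linarith
  have hM'abs : ∀ m ∈ M', |(m : ℝ)| ≤ Real.exp (2 * L) := by
    intro m hm
    have h1 : Real.exp (2 * L) = x ^ 2 := by
      rw [← hLx, ← Real.exp_nat_mul]
      congr 1
    rw [h1]
    rcases mem_insert.1 hm with h | h
    · rw [h]
      simp only [Int.cast_zero, abs_zero]
      positivity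
    · exact hMx m h
  have hωD : (DM a M').primeFactors.card ≤ Z := by
    have h1 := DM_card a M' ha0 L (by linarith) hlogaL hM'abs
    have h2 : (M'.card : ℝ) ≤ 2 * (r * L) := by
      have h3 : lam * L ≤ r * L := mul_le_mul_of_nonneg_right f3 hLpos.le
      have h4 : 1 * 1 ≤ r * L := mul_le_mul hr1 (by linarith) zero_le_one hr0.le
      linarith
    have h3 : (M'.card : ℝ) ^ 2 ≤ (2 * (r * L)) ^ 2 := pow_le_pow_left₀ (Nat.cast_nonneg _) h2 2
    have h4 : ((DM a M').primeFactors.card : ℝ) ≤ Z := by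
      refine h1.trans (le_trans ?_ hZL)
      have h5 : (M'.card : ℝ) ^ 2 * (3 * L) ≤ (2 * (r * L)) ^ 2 * (3 * L) :=
        mul_le_mul_of_nonneg_right h3 (by positivity)
      have h6 : (2 * (r * L)) ^ 2 * (3 * L) = 12 * (r ^ 2 * L ^ 3) := by ring
      have h7 : 25 * r ^ 2 ≤ L := by
        rw [← hrL]
        have h8 : (25 : ℝ) ≤ r ^ 6 := by
          have h9 : r ≤ r ^ 6 := by
            calc r = r ^ 1 := (pow_one r).symm
              _ ≤ r ^ 6 := pow_le_pow_right₀ hr1 (by norm_num)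
          have : (25 : ℝ) ≤ 10 ^ 10 := by norm_num
          linarith
        calc 25 * r ^ 2 ≤ r ^ 6 * r ^ 2 := mul_le_mul_of_nonneg_right h8 (by positivity)
          _ = r ^ 8 := by ring
      have h8 : 25 * r ^ 2 * L ^ 3 ≤ L * L ^ 3 := mul_le_mul_of_nonneg_right h7 (by positivity)
      have h9 : 2 * L ≤ r ^ 2 * L ^ 3 := by
        have h10 : 2 ≤ L ^ 2 := by
          have : 100 * 100 ≤ L * L := mul_le_mul (by linarith) (by linarith) (by norm_num) hLpos.le
          rw [pow_two]; linarith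
        calc 2 * L ≤ L ^ 2 * L := mul_le_mul_of_nonneg_right h10 hLpos.le
          _ = 1 * L ^ 3 := by ring
          _ ≤ r ^ 2 * L ^ 3 := mul_le_mul_of_nonneg_right (hrk 2) (by positivity)
      have h10 : L * L ^ 3 = L ^ 4 := by ring
      linarith
    exact_mod_cast h4
  -- number of prime factors
  have hω2 : (a.primeFactors.card : ℝ) ≤ 2 * L := by
    have h1 : (2 : ℝ) ^ a.primeFactors.card ≤ a := by
      exact_mod_cast LPAP.two_pow_card_primeFactors_le ha0
    have h2 : (a.primeFactors.card : ℝ) * Real.log 2 ≤ L := by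
      rw [← Real.log_pow]
      exact (Real.log_le_log (by positivity) h1).trans hlogaL
    have h3 : (1 : ℝ) / 2 ≤ Real.log 2 := by
      have := Real.log_two_gt_d9
      linarith
    have h4 : (0 : ℝ) ≤ a.primeFactors.card := Nat.cast_nonneg _
    have h5 := mul_le_mul_of_nonneg_left h3 h4
    linarith
  have hω3 : (a.primeFactors.card : ℝ) ≤ Lh / 8 := by
    have h1 := omega_le a ha0 L hlogaL (by linarith)
    rw [← hll] at h1
    have h2 : √L = r ^ 4 := by
      rw [← hrL, show r ^ 8 = (r ^ 4) ^ 2 by ring, Real.sqrt_sq (by positivity)]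
    have h3 : r ^ 4 ≤ r ^ 7 := pow_le_pow_right₀ hr1 (by norm_num)
    have h4 := hrk 7
    have h5 : 2 * L / ll ≤ Lh / 896 := by
      have h6 : 2 * L / ll = (1792 * L / ll) / 896 := by ring
      rw [h6]
      exact div_le_div_of_nonneg_right f5 (by norm_num)
    rw [h2] at h1
    linarith
  -- size of W
  have hwL : (w : ℝ) ≤ Lh / 100 := Nat.floor_le (by positivity)
  have hw1 : 1 ≤ w := by
    rw [hw]
    exact Nat.le_floor (by push_cast; linarith)
  have hWle : (W : ℝ) ≤ Real.exp (Lh / 50) := by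
    have h1 : (W : ℝ) ≤ 4 ^ w := by exact_mod_cast LPAP.Wp_le w a
    refine h1.trans ?_
    calc (4 : ℝ) ^ w ≤ Real.exp 2 ^ w := by
          refine pow_le_pow_left₀ (by norm_num) ?_ w
          have h2 : Real.exp 2 = Real.exp 1 * Real.exp 1 := by rw [← Real.exp_add]; norm_num
          have h3 := Real.exp_one_gt_d9
          have h4 : 2 * 2 ≤ Real.exp 1 * Real.exp 1 :=
            mul_le_mul (by linarith) (by linarith) (by norm_num) (Real.exp_pos _).le
          linarith
      _ = Real.exp (w * 2) := by rw [← Real.exp_nat_mul]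
      _ ≤ Real.exp (Lh / 50) := Real.exp_le_exp.2 (by linarith)
  have hsq : ∀ q : ℕ, (q : ℝ) ≤ Real.exp (Lh / 4) → q ≤ Nat.sqrt H := by
    intro q hq
    rw [Nat.le_sqrt']
    have h1 : (q : ℝ) ^ 2 ≤ H := by
      calc (q : ℝ) ^ 2 ≤ Real.exp (Lh / 4) ^ 2 := pow_le_pow_left₀ (Nat.cast_nonneg q) hq 2
        _ = Real.exp (Lh / 2) := by rw [← Real.exp_nat_mul]; congr 1; push_cast; ring
        _ ≤ Real.exp Lh := Real.exp_le_exp.2 (by linarith)
        _ = H := hLha
    exact_mod_cast h1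
  -- the interval `(Y, X]`
  set X := Y + H with hX
  have hYX : Y ≤ X := by omega
  have hXY : (X : ℝ) - Y = H := by
    rw [hX]
    push_cast
    ring
  have h5φ : 1 / (2 * L + 1) ≤ (a.totient : ℝ) / a := by
    have h6 := LPAP.prod_one_sub_ge_card a.primeFactors fun p hp =>
      (Nat.prime_of_mem_primeFactors hp).two_le
    rw [← LPAP.totient_div a ha0] at h6
    refine le_trans ?_ h6
    exact one_div_le_one_div_of_le (by positivity) (by linarith)
  have hE : 2 ^ a.primeFactors.card * Real.exp (Lh / 4 / 2) ≤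
      ((X : ℝ) - Y) / W * (a.totient / a) := by
    have h1 : (2 : ℝ) ^ a.primeFactors.card ≤ Real.exp (Lh / 8) := by
      have h2 : (2 : ℝ) ≤ Real.exp 1 := by
        have := Real.exp_one_gt_d9
        linarith
      calc (2 : ℝ) ^ a.primeFactors.card ≤ Real.exp 1 ^ a.primeFactors.card :=
            pow_le_pow_left₀ (by norm_num) h2 _
        _ = Real.exp (a.primeFactors.card * 1) := by rw [← Real.exp_nat_mul]
        _ ≤ Real.exp (Lh / 8) := Real.exp_le_exp.2 (by linarith)
    have h7 : Real.exp Lh / 2 * Real.exp (-(Lh / 50)) * (1 / (2 * L + 1)) ≤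
        ((X : ℝ) - Y) / W * (a.totient / a) := by
      refine mul_le_mul ?_ h5φ (by positivity) ?_
      · rw [Real.exp_neg, ← div_eq_mul_inv, hLha, hXY]
        exact div_le_div₀ hHR.le (by linarith) hWR hWle
      · rw [hXY]
        positivity
    refine le_trans ?_ h7
    have h8 : 2 * (2 * L + 1) ≤ Real.exp (73 / 100 * Lh) := by
      have h9 : 1 + 73 / 100 * Lh + (73 / 100 * Lh) ^ 2 / 2 ≤ Real.exp (73 / 100 * Lh) :=
        Real.quadratic_le_exp_of_nonneg (by positivity)
      have h11 : (73 / 100 * Lh) ^ 2 / 2 = 5329 / 20000 * Lh ^ 2 := by ring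
      rw [h11] at h9
      linarith
    calc 2 ^ a.primeFactors.card * Real.exp (Lh / 4 / 2)
        ≤ Real.exp (Lh / 8) * Real.exp (Lh / 4 / 2) :=
          mul_le_mul_of_nonneg_right h1 (Real.exp_pos _).le
      _ = 2 * (2 * L + 1) * (Real.exp (1 / 4 * Lh) * (1 / (2 * L + 1)) / 2) := by
          have h10 : Real.exp (Lh / 8) * Real.exp (Lh / 4 / 2) = Real.exp (1 / 4 * Lh) := by
            rw [← Real.exp_add]; congr 1; ring
          rw [h10]
          field_simp
      _ ≤ Real.exp (73 / 100 * Lh) * (Real.exp (1 / 4 * Lh) * (1 / (2 * L + 1)) / 2) :=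
          mul_le_mul_of_nonneg_right h8 (by positivity)
      _ = Real.exp Lh / 2 * Real.exp (-(Lh / 50)) * (1 / (2 * L + 1)) := by
          have h11 : Real.exp (73 / 100 * Lh) * Real.exp (1 / 4 * Lh) =
              Real.exp Lh * Real.exp (-(Lh / 50)) := by
            rw [← Real.exp_add, ← Real.exp_add]; congr 1; ring
          calc _ = (Real.exp (73 / 100 * Lh) * Real.exp (1 / 4 * Lh)) *
                (1 / (2 * L + 1)) / 2 := by ring
            _ = _ := by rw [h11]; ring
  -- the parameter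
  set lam' := 224 * (lam * L / Lh) with hlam'
  have hq1 : 1 ≤ lam * L / Lh := by
    rw [le_div_iff₀ hLhpos, one_mul]
    calc Lh ≤ L := hLhL
      _ ≤ lam * L := le_mul_of_one_le_left hLpos.le hlam
  have hlam'1 : 1 ≤ lam' := by
    rw [hlam']
    linarith
  have hexpK : Real.exp (K * lam') ≤ r := by
    rw [← hexpr]
    exact Real.exp_le_exp.2 f2
  -- the count
  have htot := total_count4 (a := a) (M := M') (w := w) (Y := Y) (X := X)
    (fun b => ∀ m ∈ M, (m + (b : ℤ)).natAbs.Prime → (m + (b : ℤ)).natAbs ≤ Nat.sqrt H)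
    (K := Real.exp (-Real.exp (K * lam')) * (((X : ℝ) - Y) * (a.totient / a)))
    ?_ ?_
  · set A := (Ioc Y X).filter (fun b : ℕ => b.Coprime a ∧
      ∀ m ∈ M, (m + (b : ℤ)).natAbs.Prime → (m + (b : ℤ)).natAbs ≤ Nat.sqrt H) with hA
    set B := (Ioc Y X).filter (fun b : ℕ => b.Coprime a ∧ ∀ m ∈ M, ¬ (m + (b : ℤ)).natAbs.Prime)
      with hB
    set E := (Ioc Y X).filter (fun b : ℕ => ∃ m ∈ M, (m + (b : ℤ)).natAbs ≤ Nat.sqrt H) with hEx
    have hABE : A ⊆ B ∪ E := by
      intro b hb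
      obtain ⟨h1, h2, h3⟩ := mem_filter.1 hb
      rw [mem_union]
      by_cases h4 : ∀ m ∈ M, ¬ (m + (b : ℤ)).natAbs.Prime
      · left
        exact mem_filter.2 ⟨h1, h2, h4⟩
      · right
        push Not at h4
        obtain ⟨m, hm, hmp⟩ := h4
        exact mem_filter.2 ⟨h1, m, hm, h3 m hm hmp⟩
    have hcardAB : (A.card : ℝ) ≤ (B.card : ℝ) + (E.card : ℝ) := by
      have := (card_le_card hABE).trans (card_union_le _ _)
      exact_mod_cast this
    have hEle : (E.card : ℝ) ≤ Real.exp (-Real.exp (K * lam')) * ((H : ℝ) * (a.totient / a)) / 4 := by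
      have h1 : (E.card : ℝ) ≤ (M.card : ℝ) * (2 * (Nat.sqrt H : ℕ) + 1) := by
        exact_mod_cast exc_card M Y X (Nat.sqrt H)
      refine h1.trans ?_
      refine exc_small hr hrL f1 f3 hMle' ?_ (Nat.cast_nonneg _) h5φ hLha hexpK
      have h2 : ((Nat.sqrt H : ℕ) : ℝ) ^ 2 ≤ Real.exp (Lh / 2) ^ 2 := by
        rw [← Real.exp_nat_mul]
        have h3 : ((2 : ℕ) : ℝ) * (Lh / 2) = Lh := by push_cast; ring
        rw [h3, hLha]
        exact_mod_cast Nat.sqrt_le' H
      exact le_of_sq_le_sq h2 (Real.exp_pos _).le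
    rw [hXY] at htot
    have h4 : Real.exp (-Real.exp ((224 * K + 3) * (lam * L / Lh))) ≤
        Real.exp (-Real.exp (K * lam')) / 4 := by
      have h5 : Real.exp (K * lam') + 2 ≤ Real.exp ((224 * K + 3) * (lam * L / Lh)) := by
        have h6 : Real.exp ((224 * K + 3) * (lam * L / Lh)) =
            Real.exp (3 * (lam * L / Lh)) * Real.exp (K * lam') := by
          rw [← Real.exp_add, hlam']; ring_nf
        have h7 : 3 ≤ Real.exp (3 * (lam * L / Lh)) := by
          have := Real.add_one_le_exp (3 * (lam * L / Lh)); linarith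
        have h8 : 1 ≤ Real.exp (K * lam') := Real.one_le_exp (by positivity)
        rw [h6]
        have h9 := mul_le_mul_of_nonneg_right h7 (Real.exp_pos (K * lam')).le
        linarith
      calc Real.exp (-Real.exp ((224 * K + 3) * (lam * L / Lh)))
          ≤ Real.exp (-Real.exp (K * lam') + -2) := Real.exp_le_exp.2 (by linarith)
        _ = Real.exp (-Real.exp (K * lam')) * Real.exp (-2) := Real.exp_add _ _
        _ ≤ Real.exp (-Real.exp (K * lam')) * (1 / 4) := by
            refine mul_le_mul_of_nonneg_left ?_ (Real.exp_pos _).le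
            rw [Real.exp_neg, inv_eq_one_div]
            refine one_div_le_one_div_of_le (by norm_num) ?_
            have h10 : Real.exp 2 = Real.exp 1 * Real.exp 1 := by rw [← Real.exp_add]; norm_num
            have h11 := Real.exp_one_gt_d9
            have h12 : 2 * 2 ≤ Real.exp 1 * Real.exp 1 :=
              mul_le_mul (by linarith) (by linarith) (by norm_num) (Real.exp_pos _).le
            linarith
        _ = _ := by ring
    have h13 := mul_le_mul_of_nonneg_right h4
      (show (0 : ℝ) ≤ (H : ℝ) * ((a.totient : ℝ) / a) by positivity)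
    linarith
  · intro b0 _ hb0
    set S := insert 0 (M'.filter (fun m => Int.gcd (m + (b0 : ℕ)) W = 1)) with hSdef
    have hSsub : S ⊆ M' := by
      rw [hSdef, insert_subset_iff]
      exact ⟨mem_insert_self _ _, filter_subset _ _⟩
    have hcard : (S.card : ℝ) ≤ 2 * (lam * L / Real.log (w + 1)) + 3 := by
      have h1 : S.card ≤ (M'.filter (fun m => Int.gcd (m + (b0 : ℕ)) W = 1)).card + 1 :=
        card_insert_le _ _
      have h2 : (S.card : ℝ) ≤
          ((M'.filter (fun m => Int.gcd (m + (b0 : ℕ)) W = 1)).card : ℝ) + 1 := by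
        exact_mod_cast h1
      have h3 : ((M'.filter (fun m => Int.gcd (m + (b0 : ℕ)) W = 1)).card : ℝ) * W ≤
          2 * (M'.card * W.totient) := by exact_mod_cast hb0
      have h4 : ((M'.filter (fun m => Int.gcd (m + (b0 : ℕ)) W = 1)).card : ℝ) ≤
          2 * (M'.card * (W.totient / W)) := by
        rw [← mul_div_assoc, ← mul_div_assoc, le_div_iff₀ hWR]
        exact h3
      have h5 := LPAP.totient_Wp_le (w := w) (a := a) hw1 ha0
      have h6 : ((W.totient : ℕ) : ℝ) / W ≤ 1 := by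
        rw [div_le_one hWR]
        exact_mod_cast Nat.totient_le W
      have h6' : 0 ≤ ((W.totient : ℕ) : ℝ) / W := by positivity
      have h7 : (M'.card : ℝ) * (W.totient / W) ≤ lam * L / Real.log (w + 1) + 1 := by
        calc (M'.card : ℝ) * (W.totient / W)
            ≤ (lam * ((a.totient : ℝ) / a) * L + 1) * (W.totient / W) :=
              mul_le_mul_of_nonneg_right hM'le h6'
          _ = lam * L * (W.totient / W * (a.totient / a)) + W.totient / W := by ring
          _ ≤ lam * L * (1 / Real.log (w + 1)) + 1 :=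
              add_le_add (mul_le_mul_of_nonneg_left h5 (by positivity)) h6
          _ = _ := by ring
      linarith
    have hlw : ll / 2 ≤ Real.log (w + 1) := by
      have h1 : ll / 2 = Real.log (r ^ 4) := by
        have h2 : ll = Real.log (r ^ 8) := by rw [hrL]
        rw [h2, Real.log_pow, Real.log_pow]
        push_cast
        ring
      rw [h1]
      refine Real.log_le_log (by positivity) ?_
      have h3 : Lh / 100 < (w : ℝ) + 1 := Nat.lt_floor_add_one _
      have h4 : r ^ 4 ≤ r ^ 7 := pow_le_pow_right₀ hr1 (by norm_num)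
      have h5 := hrk 4
      linarith
    have hcard2 : (S.card : ℝ) ≤ 4 * lam * L / ll + 3 := by
      refine hcard.trans ?_
      have h1 : lam * L / Real.log (w + 1) ≤ lam * L / (ll / 2) :=
        div_le_div_of_nonneg_left (by positivity) (by linarith) hlw
      have h2 : 2 * (lam * L / (ll / 2)) = 4 * lam * L / ll := by field_simp; ring
      linarith
    have hcard3 : (S.card : ℝ) ≤ 7 * lam * L := by
      refine hcard2.trans ?_
      have h1 : 4 * lam * L / ll ≤ 4 * lam * L := div_le_self (by positivity) hll1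
      have h2 : 1 * 1 ≤ lam * L := mul_le_mul hlam (by linarith) zero_le_one (by linarith)
      linarith
    have hmain := class_count4 hUD (lam := lam') hlam'1 ha0 (M := M') (LX := Lh / 4) (Z := Z)
      (Y := Y) (X := X) hZ3 ?_ hωD S hSsub (insert_nonempty _ _)
      ?_ ?_ ?_ hW (LPAP.Wp_coprime w a) ?_ hYX hE b0
    · have h1 : Real.exp (-Real.exp (K * lam')) *
          (((X : ℝ) - Y) * (a.totient / a)) / W =
          Real.exp (-Real.exp (K * lam')) *
            (((X : ℝ) - Y) / W * (a.totient / a)) := by ring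
      rw [h1]
      refine hmain.trans (Nat.cast_le.2 (card_le_card ?_))
      intro b hb
      simp only [mem_filter] at hb ⊢
      obtain ⟨hb1, hb2⟩ := hb
      refine ⟨hb1, fun m hm hmp => ?_⟩
      obtain ⟨hb3, hb4, _⟩ := mem_filter.1 hb1
      by_cases hnS : m ∈ S
      · obtain ⟨q, hq, hq2, hqd⟩ := hb2 m hnS
        refine small_of_prime hq (hsq q (hq2.trans (Real.exp_le_exp.2 ?_))) hqd rfl hmp
        refine div_le_self (by linarith) ?_
        exact one_le_mul_of_one_le_of_one_le hK0 hlam'1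
      · have h2 : Int.gcd (m + (b0 : ℕ)) W ≠ 1 := by
          intro hco
          exact hnS (mem_insert_of_mem (mem_filter.2 ⟨mem_insert_of_mem hm, hco⟩))
        obtain ⟨p, hp, hpg⟩ := Nat.exists_prime_and_dvd h2
        have hpW : p ∣ W := by
          have := hpg.trans (Nat.gcd_dvd_right _ _)
          simpa using this
        have hpn : (p : ℤ) ∣ m + (b0 : ℕ) := by
          have h3 := Int.natCast_dvd_natCast.2 hpg
          exact h3.trans (Int.gcd_dvd_left _ _)
        have hpw : p ≤ w := (LPAP.mem_sp.1 ((LPAP.prime_dvd_Wp hp).1 hpW)).1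
        have hpb : (p : ℤ) ∣ m + (b : ℤ) := by
          have h3 : b ≡ b0 [MOD p] := hb4.of_dvd hpW
          have h4 : (p : ℤ) ∣ (b0 : ℤ) - b := (Nat.modEq_iff_dvd.1 h3)
          have h5 : m + (b : ℤ) = (m + (b0 : ℤ)) - ((b0 : ℤ) - b) := by ring
          rw [h5]
          exact Int.dvd_sub hpn h4
        refine small_of_prime hp (hsq p ?_) hpb rfl hmp
        have h5 : (p : ℝ) ≤ w := by exact_mod_cast hpw
        have h6 := Real.add_one_le_exp (Lh / 4)
        linarith
    · -- exp * log Z ≤ LX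
      calc Real.exp (K * lam') * Real.log Z ≤ r * (8 * ll) :=
            mul_le_mul hexpK hlZ (Real.log_natCast_nonneg Z) hr0.le
        _ ≤ r * (8 * r) := mul_le_mul_of_nonneg_left (by linarith) hr0.le
        _ = 8 * r ^ 2 := by ring
        _ ≤ 8 * r ^ 7 := by
            have : r ^ 2 ≤ r ^ 7 := pow_le_pow_right₀ hr1 (by norm_num)
            linarith
        _ ≤ Lh / 4 := by
            have := hrk 7
            linarith
    · -- 2 card ≤ Z
      have h1 : (2 : ℝ) * S.card ≤ Z := by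
        refine le_trans ?_ (hL34.trans hZL)
        have h2 : 14 * lam * L ≤ L * L := mul_le_mul_of_nonneg_right n2 hLpos.le
        have h3 : L * L ≤ L ^ 3 := by
          calc L * L = L * L * 1 := by ring
            _ ≤ L * L * L := mul_le_mul_of_nonneg_left (by linarith) (by positivity)
            _ = L ^ 3 := by ring
        linarith
      exact_mod_cast h1
    · -- card * log Z
      have hlZ0 : 0 ≤ Real.log Z := Real.log_natCast_nonneg Z
      have hllL : ll ≤ L := by
        have := Real.log_le_sub_one_of_pos hLpos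
        linarith
      calc (S.card : ℝ) * Real.log Z ≤ (4 * lam * L / ll + 3) * (8 * ll) :=
            mul_le_mul hcard2 hlZ hlZ0 (by positivity)
        _ = 32 * lam * L + 24 * ll := by field_simp; ring
        _ ≤ 56 * (lam * L) := by
          have h1 : 1 * L ≤ lam * L := mul_le_mul_of_nonneg_right hlam hLpos.le
          linarith
        _ = lam' * (Lh / 4) := by
          rw [hlam']
          field_simp
          norm_num
    · -- card ^ 2
      have h1 : (S.card : ℝ) ^ 2 ≤ (7 * lam * L) ^ 2 :=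
        pow_le_pow_left₀ (Nat.cast_nonneg _) hcard3 2
      have hL3 : 0 < L ^ 3 := by positivity
      have h2 : (4 : ℝ) / Z ≤ 4 / L ^ 3 :=
        div_le_div_of_nonneg_left (by norm_num) hL3 (hL34.trans hZL)
      calc (S.card : ℝ) ^ 2 * (4 / Z) ≤ (7 * lam * L) ^ 2 * (4 / L ^ 3) :=
            mul_le_mul h1 h2 (by positivity) (by positivity)
        _ = 196 * lam ^ 2 / L := by field_simp; ring
        _ ≤ 1 / 80000 := by
            rw [div_le_div_iff₀ hLpos (by norm_num)]
            have h3 : lam ^ 2 ≤ r ^ 2 := pow_le_pow_left₀ (by linarith) f3 2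
            have h4 : 15680000 * r ^ 2 ≤ L := by
              rw [← hrL]
              have h5 : (15680000 : ℝ) ≤ r ^ 6 := by
                have h6 : r ≤ r ^ 6 := by
                  calc r = r ^ 1 := (pow_one r).symm
                    _ ≤ r ^ 6 := pow_le_pow_right₀ hr1 (by norm_num)
                have : (15680000 : ℝ) ≤ 10 ^ 10 := by norm_num
                linarith
              calc 15680000 * r ^ 2 ≤ r ^ 6 * r ^ 2 :=
                    mul_le_mul_of_nonneg_right h5 (by positivity)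
                _ = r ^ 8 := by ring
            linarith
    · intro q hq hZq
      rw [Nat.coprime_comm, Nat.Prime.coprime_iff_not_dvd hq]
      intro hd
      have h1 : q ≤ w := (LPAP.mem_sp.1 ((LPAP.prime_dvd_Wp hq).1 hd)).1
      have h2 : (w : ℝ) ≤ Z := by linarith
      have h3 : w ≤ Z := by exact_mod_cast h2
      omega
  · rw [hXY]
    positivity

end Pool.Agent.PTa
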