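import Pool.Agent.Lib.PTa.Defs
import Pool.Agent.Lib.PNT.Theta

/-!
# Lower bound for the total weight, by the prime number theorem
-/

set_option autoImplicit false

namespace Pool.Agent.PTa

open Finset Pool.Agent.GapSieve Pool.Agent.PosProp Pool.Agent.PTr

/-- the prime number theorem in `(u X, v X]` -/
private lemma lowN_theta (u v : ℝ) (hu : 0 < u) (huv : u < v) : ∃ X0 : ℝ, ∀ X : ℝ, X0 ≤ X →
    (v - u) / 2 * X ≤ Chebyshev.theta (v * X) - Chebyshev.theta (u * X) := by
  set e : ℝ := (v - u) / (2 * (v + u)) with he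
  have hvu : 0 < v + u := by linarith
  have he0 : 0 < e := by
    rw [he]
    have : 0 < v - u := by linarith
    positivity
  obtain ⟨x0, hx0⟩ : ∃ x0 : ℝ, ∀ x : ℝ, x0 ≤ x → |Chebyshev.theta x / x - 1| < e := by
    have h := _root_.PNT.theta_tendsto
    rw [Metric.tendsto_atTop] at h
    obtain ⟨x0, h0⟩ := h e he0
    exact ⟨x0, fun x hx => by simpa [Real.dist_eq] using h0 x hx⟩
  refine ⟨max (x0 / u) (max (x0 / v) 1), fun X hX => ?_⟩
  have hX0 : x0 / u ≤ X := (le_max_left _ _).trans hX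
  have hX1 : x0 / v ≤ X := (le_max_left _ _).trans ((le_max_right _ _).trans hX)
  have hX2 : 1 ≤ X := (le_max_right _ _).trans ((le_max_right _ _).trans hX)
  have hXp : 0 < X := by linarith
  have hv : 0 < v := by linarith
  rw [div_le_iff₀ hu] at hX0
  rw [div_le_iff₀ hv] at hX1
  have hA := hx0 (v * X) (by linarith)
  have hB := hx0 (u * X) (by linarith)
  rw [abs_lt] at hA hB
  have hA1 : (1 - e) * (v * X) ≤ Chebyshev.theta (v * X) := by
    have h1 : 1 - e < Chebyshev.theta (v * X) / (v * X) := by linarith [hA.1]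
    rw [lt_div_iff₀ (by positivity)] at h1
    exact h1.le
  have hB1 : Chebyshev.theta (u * X) ≤ (1 + e) * (u * X) := by
    have h1 : Chebyshev.theta (u * X) / (u * X) < 1 + e := by linarith [hB.2]
    rw [div_lt_iff₀ (by positivity)] at h1
    exact h1.le
  have h3 : (1 - e) * (v * X) - (1 + e) * (u * X) = (v - u - e * (v + u)) * X := by ring
  have h4 : e * (v + u) = (v - u) / 2 := by
    rw [he]
    field_simp
  rw [h4] at h3
  have h5 : (v - u - (v - u) / 2) * X = (v - u) / 2 * X := by ring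
  rw [h5] at h3
  linarith

/-- **LowN** -/
theorem LowN_p : LowNStmt := by
  intro α β g hα hβ hg
  obtain ⟨α', β', h1, h2, h3, hone⟩ := hg.one
  have hα' : 0 < α' := by linarith
  have hβ' : β' < 1 / 10 := by linarith
  set u := Real.exp α' with hu
  set v := Real.exp β' with hv
  have hu0 : 0 < u := Real.exp_pos _
  have huv : u < v := Real.exp_lt_exp.2 h2
  have hu1 : 1 ≤ u := by
    rw [hu]
    exact Real.one_le_exp hα'.le
  have hv4 : v ≤ 4 := by
    have h5 : v ≤ Real.exp 1 := Real.exp_le_exp.2 (by linarith)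
    have := Real.exp_one_lt_d9
    linarith
  obtain ⟨X0, hX0⟩ := lowN_theta u v hu0 huv
  refine ⟨(v - u) / 2, max X0 1, by linarith, fun X hX => ?_⟩
  have hX1 : (1 : ℝ) ≤ X := le_trans (le_max_right _ _) hX
  have hXp : (0 : ℝ) < X := by linarith
  have hth := hX0 X ((le_max_left _ _).trans hX)
  set N1 : ℕ := ⌊u * X⌋₊ with hN1
  set N2 : ℕ := ⌊v * X⌋₊ with hN2
  have hle : N1 ≤ N2 := Nat.floor_le_floor (by nlinarith)
  have hmem : ∀ n ∈ (Ioc N1 N2).filter Nat.Prime, n.Prime ∧ u * X < n ∧ (n : ℝ) ≤ v * X := by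
    intro n hn
    rw [mem_filter, mem_Ioc] at hn
    obtain ⟨⟨h1, h2⟩, hp⟩ := hn
    exact ⟨hp, (Nat.floor_lt (by positivity)).1 h1,
      (Nat.le_floor_iff (by positivity)).1 h2⟩
  have hsub : (Ioc N1 N2).filter Nat.Prime ⊆ PA X := by
    intro n hn
    obtain ⟨hp, h3, h4⟩ := hmem n hn
    unfold PA NX
    rw [mem_filter, mem_Icc]
    refine ⟨⟨hp.one_le, Nat.le_floor ?_⟩, hp, ?_⟩
    · have : v * X ≤ 4 * X := mul_le_mul_of_nonneg_right hv4 hXp.le
      linarith
    · have : 1 * X ≤ u * X := mul_le_mul_of_nonneg_right hu1 hXp.le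
      linarith
  have hnn : ∀ n ∈ PA X, n ∉ (Ioc N1 N2).filter Nat.Prime → 0 ≤ wp g X n := by
    intro n _ _
    unfold wp
    split_ifs with h
    · exact mul_nonneg (Real.log_natCast_nonneg n) (hg.nonneg _)
    · exact le_rfl
  have hsum : ∑ n ∈ (Ioc N1 N2).filter Nat.Prime, Real.log n =
      Chebyshev.theta (v * X) - Chebyshev.theta (u * X) := by
    have e1 : ∀ x : ℝ, Chebyshev.theta x = ∑ n ∈ (Ioc 0 ⌊x⌋₊).filter Nat.Prime, Real.log n :=
      fun x => rfl
    rw [e1, e1, ← hN1, ← hN2]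
    have e2 : (Ioc 0 N2).filter Nat.Prime =
        (Ioc 0 N1).filter Nat.Prime ∪ (Ioc N1 N2).filter Nat.Prime := by
      rw [← filter_union, Ioc_union_Ioc_eq_Ioc (Nat.zero_le _) hle]
    have e3 : Disjoint ((Ioc 0 N1).filter Nat.Prime) ((Ioc N1 N2).filter Nat.Prime) := by
      rw [disjoint_left]
      intro n h1 h2
      rw [mem_filter, mem_Ioc] at h1 h2
      omega
    rw [e2, sum_union e3]
    ring
  calc (v - u) / 2 * X ≤ Chebyshev.theta (v * X) - Chebyshev.theta (u * X) := hth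
    _ = ∑ n ∈ (Ioc N1 N2).filter Nat.Prime, Real.log n := hsum.symm
    _ = ∑ n ∈ (Ioc N1 N2).filter Nat.Prime, wp g X n := by
        refine sum_congr rfl fun n hn => ?_
        obtain ⟨hp, h3, h4⟩ := hmem n hn
        have hn0 : (0 : ℝ) < n := by exact_mod_cast hp.pos
        have h5 : u ≤ (n : ℝ) / X := by rw [le_div_iff₀ hXp]; exact h3.le
        have h6 : (n : ℝ) / X ≤ v := by rw [div_le_iff₀ hXp]; exact h4
        have hd : 0 < (n : ℝ) / X := by positivity
        have h7 : α' ≤ Real.log (n / X) := by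
          rw [Real.le_log_iff_exp_le hd]
          exact h5
        have h8 : Real.log (n / X) ≤ β' := by
          rw [Real.log_le_iff_le_exp hd]
          exact h6
        unfold wp
        rw [if_pos hp, hone _ h7 h8, mul_one]
    _ ≤ ∑ n ∈ PA X, wp g X n := sum_le_sum_of_subset_of_nonneg hsub hnn

end Pool.Agent.PTa
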