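import Pool.Agent.Lib.PTa.Defs

/-!
# Narrow smooth weights
-/

set_option autoImplicit false

namespace Pool.Agent.PTa

open Finset Pool.Agent.GapSieve Pool.Agent.PosProp Pool.Agent.PTr

/-- a bump which rises in `(u, v)` -/
private noncomputable def rb (u v x : ℝ) : ℝ :=
  Real.smoothTransition ((x - u) / (v - u)) * Real.smoothTransition (19 - 20 * x)

private lemma rb_bump {u v : ℝ} (hu : 1 / 20 ≤ u) (huv : u < v) (hv : v ≤ 1 / 10) :
    Hoh.Bump (rb u v) := by
  have hd : 0 < v - u := by linarith
  refine ⟨?_, ?_, ?_, ?_, ?_⟩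
  · unfold rb
    exact (Real.smoothTransition.contDiff.comp (by fun_prop)).mul
      (Real.smoothTransition.contDiff.comp (by fun_prop))
  · intro x
    exact mul_nonneg (Real.smoothTransition.nonneg _) (Real.smoothTransition.nonneg _)
  · intro x
    exact mul_le_one₀ (Real.smoothTransition.le_one _) (Real.smoothTransition.nonneg _)
      (Real.smoothTransition.le_one _)
  · intro x hx
    unfold rb
    rcases hx with hx | hx
    · rw [Real.smoothTransition.zero_of_nonpos
        (div_nonpos_of_nonpos_of_nonneg (by linarith) hd.le), zero_mul]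
    · rw [Real.smoothTransition.zero_of_nonpos (x := 19 - 20 * x) (by linarith), mul_zero]
  · intro x h1 h2
    unfold rb
    rw [Real.smoothTransition.one_of_one_le (by rw [le_div_iff₀ hd]; linarith),
      Real.smoothTransition.one_of_one_le (by linarith), one_mul]

theorem NBex_p : NBexStmt := by
  intro α β hα hαβ hβ
  set d := (β - α) / 5 with hd
  have hd0 : 0 < d := by
    rw [hd]
    linarith
  have e1 : β = α + 5 * d := by
    rw [hd]
    ring
  have hb1 := rb_bump (u := α) (v := α + d) hα (by linarith) (by linarith)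
  have hb2 := rb_bump (u := α + 4 * d) (v := α + 5 * d) (by linarith) (by linarith) (by linarith)
  have hz1 : ∀ x, x ≤ α → rb α (α + d) x = 0 := by
    intro x hx
    unfold rb
    rw [Real.smoothTransition.zero_of_nonpos
        (div_nonpos_of_nonpos_of_nonneg (by linarith) (by linarith)), zero_mul]
  have hz2 : ∀ x, x ≤ α + 4 * d → rb (α + 4 * d) (α + 5 * d) x = 0 := by
    intro x hx
    unfold rb
    rw [Real.smoothTransition.zero_of_nonpos
        (div_nonpos_of_nonpos_of_nonneg (by linarith) (by linarith)), zero_mul]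
  have ho1 : ∀ x, α + d ≤ x → rb α (α + d) x = Real.smoothTransition (19 - 20 * x) := by
    intro x hx
    unfold rb
    rw [Real.smoothTransition.one_of_one_le
      (by rw [le_div_iff₀ (by linarith : 0 < α + d - α)]; linarith), one_mul]
  have ho2 : ∀ x, β ≤ x → rb (α + 4 * d) (α + 5 * d) x = Real.smoothTransition (19 - 20 * x) := by
    intro x hx
    unfold rb
    rw [Real.smoothTransition.one_of_one_le
      (by rw [le_div_iff₀ (by linarith : 0 < α + 5 * d - (α + 4 * d))]; linarith), one_mul]
  have hle2 : ∀ x, rb (α + 4 * d) (α + 5 * d) x ≤ Real.smoothTransition (19 - 20 * x) := by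
    intro x
    unfold rb
    exact mul_le_of_le_one_left (Real.smoothTransition.nonneg _) (Real.smoothTransition.le_one _)
  refine ⟨fun x => rb α (α + d) x - rb (α + 4 * d) (α + 5 * d) x, ?_, ?_, ?_, ?_, ?_⟩
  · intro x
    show 0 ≤ rb α (α + d) x - rb (α + 4 * d) (α + 5 * d) x
    rcases le_total x (α + 4 * d) with h | h
    · rw [hz2 x h, sub_zero]
      exact hb1.nonneg x
    · rw [ho1 x (by linarith)]
      have := hle2 x
      linarith
  · intro x
    show rb α (α + d) x - rb (α + 4 * d) (α + 5 * d) x ≤ 1
    have h1 := hb1.le_one x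
    have h2 := hb2.nonneg x
    linarith
  · intro x hx
    show rb α (α + d) x - rb (α + 4 * d) (α + 5 * d) x = 0
    rcases hx with hx | hx
    · rw [hz1 x hx, hz2 x (by linarith), sub_zero]
    · rw [ho1 x (by linarith), ho2 x hx, sub_self]
  · refine ⟨α + d, α + 4 * d, by linarith, by linarith, by linarith, ?_⟩
    intro x h1 h2
    show rb α (α + d) x - rb (α + 4 * d) (α + 5 * d) x = 1
    rw [hz2 x h2, ho1 x h1, Real.smoothTransition.one_of_one_le (by linarith), sub_zero]
  · exact ⟨_, _, hb1, hb2, fun x => rfl⟩

end Pool.Agent.PTa
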