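import Pool.Agent.Lib.PTa.Defs

/-!
# The mean value for the narrow weights
-/

set_option autoImplicit false

namespace Pool.Agent.PTa

open Finset Pool.Agent.GapSieve Pool.Agent.PosProp Pool.Agent.PTr

theorem TBn_p (h1 : TBStmt) : TBnStmt := by
  intro α β g hg
  obtain ⟨φ, ψ, hφ, hψ, hd⟩ := hg.dif
  obtain ⟨C1, X1, hC1, H1⟩ := h1 φ hφ
  obtain ⟨C2, X2, hC2, H2⟩ := h1 ψ hψ
  refine ⟨C1 + C2, max X1 X2, by positivity, fun X hX F hF => ?_⟩
  have e1 := H1 X ((le_max_left _ _).trans hX) F hF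
  have e2 := H2 X ((le_max_right _ _).trans hX) F hF
  have hw : ∀ n, wp g X n = wp φ X n - wp ψ X n := by
    intro n
    unfold wp
    split_ifs
    · rw [hd]
      ring
    · simp
  have key : PTr.PSum (PA X) (wp g X) F ≤ PTr.PSum (PA X) (wp φ X) F + PTr.PSum (PA X) (wp ψ X) F := by
    unfold PTr.PSum
    rw [← Finset.sum_add_distrib]
    refine Finset.sum_le_sum fun f _ => ?_
    rw [← Finset.sum_add_distrib]
    refine Finset.sum_le_sum fun χ _ => ?_
    split_ifs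
    · have h3 : ∑ n ∈ PA X, ((wp g X n : ℝ) : ℂ) * χ ((n : ℕ) : ZMod f) =
          ∑ n ∈ PA X, ((wp φ X n : ℝ) : ℂ) * χ ((n : ℕ) : ZMod f) -
            ∑ n ∈ PA X, ((wp ψ X n : ℝ) : ℂ) * χ ((n : ℕ) : ZMod f) := by
        rw [← Finset.sum_sub_distrib]
        refine Finset.sum_congr rfl fun n _ => ?_
        rw [hw n]
        push_cast
        ring
      rw [h3]
      exact norm_sub_le _ _
    · simp
  calc PTr.PSum (PA X) (wp g X) F ≤ _ := key
    _ ≤ C1 * X * Real.log X ^ 4 + C2 * X * Real.log X ^ 4 := add_le_add e1 e2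
    _ = (C1 + C2) * X * Real.log X ^ 4 := by ring

end Pool.Agent.PTa
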