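import Pool.Agent.Lib.PTr.Main
import Pool.Agent.Lib.PTa.HitA
import Pool.Agent.Lib.PTa.NBex
import Pool.Agent.Lib.PTa.TBn
import Pool.Agent.Lib.PTa.PXaLe
import Pool.Agent.Lib.PTa.BTn
import Pool.Agent.Lib.PTa.LowN
import Pool.Agent.Lib.PTa.SurvA
import Pool.Agent.Lib.PTa.ClassA
import Pool.Agent.Lib.PTa.GoodA
import Pool.Agent.Lib.PTa.FinalA

/-!
# Isolated primes in residue classes, assembly
-/

set_option autoImplicit false

namespace Pool.Agent.PTa

open Pool.Agent.PTr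

/-- For all reals `0 ≤ lam < mu ≤ nu` there are `δ > 0`, `A0` such that for every `a ≥ A0` at
least `δ φ(a)` reduced classes modulo `a` contain exactly one prime `≤ nu φ(a) log a`, and it lies
in `(lam φ(a) log a, mu φ(a) log a]`. -/
theorem theoremD : FinalAStmt :=
  FinalA_p (GoodA_p (ClassA_p (PosDensT_p (CoreT_p LevBet_p LevEe_p (LevUu_p LevDh_p) BetM8_p
    Mom8_p UuSq_p GGM_p CountT_p)) (Fam_p (Transfer_p ThLev_p (HatP_p Units_p ClassSum_p) HatZ_p
      (HatBd_p Coset_p KerQ_p Units_p ClassSum_p ThSq_p) FInv_p CondW_p))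
      (TBn_p (TB_p Pool.PrT.FIN)) HitA_p PXaLe_p) SurvA_p (BTn_p Lnk.btq) LowN_p PXaLe_p) NBex_p

end Pool.Agent.PTa
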